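import Pool.Agent.W2helper16.SM.Blk

/-! Strong summability almost everywhere. -/

set_option autoImplicit false

open MeasureTheory Real Set Filter Topology Metric
open scoped ENNReal NNReal RealInnerProductSpace

namespace Pool.Agent.W2helper16.SM

open Pool.Agent.Helper93.Sph (ek Fi ps ps_eq shell shell_meas ind_int bessel ps_cont_x ps_cont_R
  ps_sub piece_l2 shell_finite tail tail_set_meas tail_memLp tail_tendsto tail_ps)

variable {m : ℕ}

/-- the energy beyond radius `c` -/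
noncomputable def It (G : En (m + 1) → ℂ) (c : ℝ) : ℝ≥0∞ := ∫⁻ ξ, ‖tail c G ξ‖ₑ ^ 2

lemma It_tendsto {G : En (m + 1) → ℂ} (hG : MemLp G 2) : Tendsto (It G) atTop (𝓝 0) :=
  tendsto_of_seq_tendsto fun _ hc => tail_tendsto hG hc

lemma diff_le {G : En (m + 1) → ℂ} (hG : MemLp G 2) {R R' : ℝ} (h0 : 0 ≤ R) (h : R ≤ R') :
    ∫⁻ x, ‖ps G R' x - ps G R x‖ₑ ^ 2 ≤ It G R := by
  simp_rw [ps_sub hG h0 h]
  refine (piece_l2 hG (shell_meas _ _ _) (shell_finite _ _ _)).trans ?_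
  unfold It tail
  rw [← lintegral_indicator (shell_meas _ _ _)]
  refine lintegral_mono fun ξ => ?_
  by_cases h1 : ξ ∈ shell (m + 1) R R'
  · rw [indicator_of_mem h1, indicator_of_mem (show ξ ∈ {ξ : En (m + 1) | R ≤ ‖ξ‖} from h1.1)]
  · rw [indicator_of_notMem h1]; exact bot_le

lemma eL2 {f : En (m + 1) → ℂ} : eLpNorm f 2 volume = (∫⁻ x, ‖f x‖ₑ ^ 2) ^ (1 / 2 : ℝ) := by
  rw [eLpNorm_eq_lintegral_rpow_enorm_toReal (by norm_num) (by norm_num)]
  simp

lemma ps_memLp {G : En (m + 1) → ℂ} (hG : MemLp G 2) {R : ℝ} (_h0 : 0 ≤ R) :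
    MemLp (ps G R) 2 volume := by
  refine ⟨(ps_cont_x hG R).aestronglyMeasurable, ?_⟩
  rw [eL2]
  refine ENNReal.rpow_lt_top_of_nonneg (by norm_num) (ne_of_lt ?_)
  simp_rw [ps_eq]
  refine (piece_l2 hG (shell_meas _ _ _) (shell_finite _ _ _)).trans_lt ?_
  refine (setLIntegral_le_lintegral _ _).trans_lt ?_
  exact (Pool.Agent.Helper93.Sph.sq_fin hG).lt_top

/-- the limit function -/
theorem exists_lim {G : En (m + 1) → ℂ} (hG : MemLp G 2) : ∃ f : En (m + 1) → ℂ,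
    MemLp f 2 volume ∧ ∀ R, 0 ≤ R → ∫⁻ x, ‖ps G R x - f x‖ₑ ^ 2 ≤ It G R := by
  have hex : ∀ k : ℕ, ∃ c : ℕ, k ≤ c ∧ It G c < (4 : ℝ≥0∞)⁻¹ ^ (k + 1) := by
    intro k
    have h1 : (0 : ℝ≥0∞) < (4 : ℝ≥0∞)⁻¹ ^ (k + 1) := ENNReal.pow_pos (by simp) _
    have h2 := (It_tendsto hG).comp tendsto_natCast_atTop_atTop
    obtain ⟨c, hc1, hc2⟩ := ((h2.eventually (gt_mem_nhds h1)).and (eventually_ge_atTop k)).exists
    exact ⟨c, hc2, hc1⟩
  choose c hck hc using hex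
  have hcc : ∀ N n k : ℕ, N ≤ n → N ≤ k → c n ≤ c k →
      ∫⁻ x, ‖ps G (c k) x - ps G (c n) x‖ₑ ^ 2 < (4 : ℝ≥0∞)⁻¹ ^ (N + 1) := by
    intro N n k hn hk hnk
    refine (diff_le hG (Nat.cast_nonneg _) (by exact_mod_cast hnk)).trans_lt ((hc n).trans_le ?_)
    exact pow_le_pow_of_le_one (by simp) (by simp) (by omega)
  have hroot : ∀ N : ℕ, ((4 : ℝ≥0∞)⁻¹ ^ (N + 1)) ^ (1 / 2 : ℝ) = (2 : ℝ≥0∞)⁻¹ ^ (N + 1) := by
    intro N
    have : (4 : ℝ≥0∞)⁻¹ = (2⁻¹) ^ 2 := by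
      rw [← ENNReal.inv_pow]; norm_num
    rw [this, ← pow_mul, mul_comm, pow_mul, ← ENNReal.rpow_natCast _ 2, ← ENNReal.rpow_mul]
    norm_num
  obtain ⟨f, hf, hlim⟩ := Lp.cauchy_complete_eLpNorm (p := 2) (μ := (volume : Measure (En (m + 1))))
    (f := fun k => ps G (c k)) (by norm_num) (fun k => ps_memLp hG (Nat.cast_nonneg _))
    (B := fun N => (2 : ℝ≥0∞)⁻¹ ^ (N + 1))
    (by
      simp_rw [pow_succ]
      rw [ENNReal.tsum_mul_right, ENNReal.tsum_geometric]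
      simp) (by
      intro N n k hn hk
      rw [eL2, ← hroot N]
      refine ENNReal.rpow_lt_rpow ?_ (by norm_num)
      simp only [Pi.sub_apply]
      rcases le_total (c n) (c k) with h | h
      · have := hcc N n k hn hk h
        refine lt_of_eq_of_lt (lintegral_congr fun x => ?_) this
        rw [← enorm_neg, neg_sub]
      · exact hcc N k n hk hn h)
  refine ⟨f, hf, fun R hR => ?_⟩
  have hIR : eLpNorm (ps G R - f) 2 volume ≤ (It G R) ^ (1 / 2 : ℝ) := by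
    have h1 : ∀ᶠ k in atTop, eLpNorm (ps G R - f) 2 volume ≤
        (It G R) ^ (1 / 2 : ℝ) + eLpNorm (ps G (c k) - f) 2 volume := by
      have h2 : ∀ᶠ k : ℕ in atTop, R ≤ c k := by
        obtain ⟨N, hN⟩ := exists_nat_ge R
        filter_upwards [eventually_ge_atTop N] with k hk
        exact hN.trans (by exact_mod_cast hk.trans (hck k))
      filter_upwards [h2] with k hk
      have e1 : ps G R - f = (ps G R - ps G (c k)) + (ps G (c k) - f) := by abel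
      rw [e1]
      refine (eLpNorm_add_le ?_ ?_ (by norm_num)).trans (add_le_add ?_ le_rfl)
      · exact (ps_cont_x hG _).aestronglyMeasurable.sub (ps_cont_x hG _).aestronglyMeasurable
      · exact (ps_cont_x hG _).aestronglyMeasurable.sub hf.aestronglyMeasurable
      · rw [eL2]
        refine ENNReal.rpow_le_rpow ?_ (by norm_num)
        refine le_trans (le_of_eq (lintegral_congr fun x => ?_)) (diff_le hG hR hk)
        rw [Pi.sub_apply, ← enorm_neg, neg_sub]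
    have h3 : Tendsto (fun k => (It G R) ^ (1 / 2 : ℝ) + eLpNorm (ps G (c k) - f) 2 volume) atTop
        (𝓝 ((It G R) ^ (1 / 2 : ℝ) + 0)) := hlim.const_add _
    rw [add_zero] at h3
    exact ge_of_tendsto h3 h1
  rw [eL2] at hIR
  have h4 := ENNReal.rpow_le_rpow hIR (by norm_num : (0 : ℝ) ≤ 2)
  have h5 : ∀ y : ℝ≥0∞, (y ^ (1 / 2 : ℝ)) ^ (2 : ℝ) = y := fun y => by
    rw [← ENNReal.rpow_mul]; norm_num
  rw [h5, h5] at h4
  exact h4

/-- the mean of the `p`-th power of the deviation -/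
noncomputable def Pp (p : ℝ) (G f : En (m + 1) → ℂ) (x : En (m + 1)) (T : ℝ) : ℝ≥0∞ :=
  (ENNReal.ofReal T)⁻¹ * ∫⁻ R in Ioc 0 T, ‖ps G R x - f x‖ₑ ^ p

lemma Pp_le {G f : En (m + 1) → ℂ} (hG : MemLp G 2) {q : ℝ} (hq : 2 ≤ q) {c T : ℝ} (hc : 0 ≤ c)
    (hT : c < T) (x : En (m + 1)) : Pp q G f x T ≤
      (ENNReal.ofReal T)⁻¹ * (∫⁻ R in Ioc 0 c, ‖ps G R x - f x‖ₑ ^ q) +
      2 ^ (q - 1) * (‖ps G c x - f x‖ₑ ^ q + (2 * Sm q (tail c G) x) ^ q) := by
  have hq0 : 0 < q := by linarith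
  have hT0 : 0 < T := hc.trans_lt hT
  have hTn : ENNReal.ofReal T ≠ 0 := (ENNReal.ofReal_pos.2 hT0).ne'
  have htG := tail_memLp c hG
  have hsplit : Ioc (0 : ℝ) T = Ioc 0 c ∪ Ioc c T := (Ioc_union_Ioc_eq_Ioc hc hT.le).symm
  have h1 : ∫⁻ R in Ioc c T, ‖ps G R x - f x‖ₑ ^ q ≤
      2 ^ (q - 1) * (ENNReal.ofReal T * ‖ps G c x - f x‖ₑ ^ q +
        ∫⁻ R in Ioc 0 T, ‖ps (tail c G) R x‖ₑ ^ q) := by
    calc ∫⁻ R in Ioc c T, ‖ps G R x - f x‖ₑ ^ q
        ≤ ∫⁻ R in Ioc c T, 2 ^ (q - 1) * (‖ps G c x - f x‖ₑ ^ q + ‖ps (tail c G) R x‖ₑ ^ q) := by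
          refine setLIntegral_mono' measurableSet_Ioc fun R hR => ?_
          have e1 : ps G R x - f x = (ps G c x - f x) + ps (tail c G) R x := by
            rw [tail_ps hG hc hR.1.le]; ring
          rw [e1]
          refine (ENNReal.rpow_le_rpow (enorm_add_le _ _) hq0.le).trans ?_
          exact ENNReal.rpow_add_le_mul_rpow_add_rpow _ _ (by linarith)
      _ ≤ ∫⁻ R in Ioc 0 T, 2 ^ (q - 1) * (‖ps G c x - f x‖ₑ ^ q + ‖ps (tail c G) R x‖ₑ ^ q) :=
          lintegral_mono_set (Ioc_subset_Ioc_left hc)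
      _ = _ := by
          rw [lintegral_const_mul' _ _ (ENNReal.rpow_ne_top_of_nonneg (by linarith) (by simp)),
            lintegral_add_left measurable_const, setLIntegral_const, Real.volume_Ioc, sub_zero,
            mul_comm (‖ps G c x - f x‖ₑ ^ q)]
  unfold Pp
  rw [hsplit]
  refine (mul_le_mul' le_rfl (lintegral_union_le _ _ _)).trans ?_
  rw [mul_add]
  refine add_le_add le_rfl ?_
  refine (mul_le_mul' le_rfl h1).trans ?_
  have h2 : (ENNReal.ofReal T)⁻¹ * ∫⁻ R in Ioc 0 T, ‖ps (tail c G) R x‖ₑ ^ q ≤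
      (2 * Sm q (tail c G) x) ^ q := by
    have h3 := ENNReal.rpow_le_rpow (Mq_le htG hq hT0 x) hq0.le
    unfold Mq at h3
    rwa [← ENNReal.rpow_mul, one_div_mul_cancel hq0.ne', ENNReal.rpow_one] at h3
  calc (ENNReal.ofReal T)⁻¹ * (2 ^ (q - 1) * (ENNReal.ofReal T * ‖ps G c x - f x‖ₑ ^ q +
        ∫⁻ R in Ioc 0 T, ‖ps (tail c G) R x‖ₑ ^ q))
      = 2 ^ (q - 1) * (((ENNReal.ofReal T)⁻¹ * ENNReal.ofReal T) * ‖ps G c x - f x‖ₑ ^ q +
        (ENNReal.ofReal T)⁻¹ * ∫⁻ R in Ioc 0 T, ‖ps (tail c G) R x‖ₑ ^ q) := by ring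
    _ ≤ _ := by
        rw [ENNReal.inv_mul_cancel hTn ENNReal.ofReal_ne_top, one_mul]
        gcongr

lemma inv_T_tendsto {A : ℝ≥0∞} (hA : A ≠ ⊤) :
    Tendsto (fun T : ℝ => (ENNReal.ofReal T)⁻¹ * A) atTop (𝓝 0) := by
  have h1 : Tendsto (fun T : ℝ => (ENNReal.ofReal T)⁻¹) atTop (𝓝 0) := by
    have := ENNReal.tendsto_ofReal_atTop
    have h2 := tendsto_inv_iff.2 this
    rwa [ENNReal.inv_top] at h2
  have := ENNReal.Tendsto.mul_const h1 (Or.inr hA)
  rwa [zero_mul] at this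

/-- strong convergence at a good point, for one exponent -/
lemma Pp_tendsto {G f : En (m + 1) → ℂ} (hG : MemLp G 2) {q : ℝ} (hq : 2 ≤ q) {c : ℕ → ℝ}
    (hc : ∀ k, 0 ≤ c k) {x : En (m + 1)}
    (h1 : Tendsto (fun k => ‖ps G (c k) x - f x‖ₑ) atTop (𝓝 0))
    (h2 : Tendsto (fun k => 2 * Sm q (tail (c k) G) x) atTop (𝓝 0)) :
    Tendsto (Pp q G f x) atTop (𝓝 0) := by
  have hq0 : 0 < q := by linarith
  have hu : Tendsto (fun k => (2 : ℝ≥0∞) ^ (q - 1) * (‖ps G (c k) x - f x‖ₑ ^ q +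
      (2 * Sm q (tail (c k) G) x) ^ q)) atTop (𝓝 0) := by
    have e1 := ((ENNReal.continuous_rpow_const (y := q)).tendsto 0).comp h1
    have e2 := ((ENNReal.continuous_rpow_const (y := q)).tendsto 0).comp h2
    rw [ENNReal.zero_rpow_of_pos hq0] at e1 e2
    have e3 := e1.add e2
    rw [add_zero] at e3
    have e4 := ENNReal.Tendsto.const_mul (a := (2 : ℝ≥0∞) ^ (q - 1)) e3
      (Or.inr (ENNReal.rpow_ne_top_of_nonneg (by linarith) (by simp)))
    rwa [mul_zero] at e4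
  rw [ENNReal.tendsto_nhds_zero]
  intro ε hε
  have hε2 : 0 < ε / 2 := ENNReal.div_pos hε.ne' (by simp)
  obtain ⟨k, hk⟩ := ((ENNReal.tendsto_nhds_zero.1 hu) (ε / 2) hε2).exists
  have hA : ∫⁻ R in Ioc 0 (c k), ‖ps G R x - f x‖ₑ ^ q ≠ ⊤ := by
    have hcont : Continuous fun R => ‖ps G R x - f x‖ := ((ps_cont_R hG x).sub continuous_const).norm
    obtain ⟨B, hB⟩ := (isCompact_Icc (a := (0 : ℝ)) (b := c k)).exists_bound_of_continuousOn
      hcont.continuousOn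
    refine ne_of_lt (lt_of_le_of_lt (setLIntegral_mono' (g := fun _ => ENNReal.ofReal B ^ q)
      measurableSet_Ioc fun R hR => ?_) ?_)
    · refine ENNReal.rpow_le_rpow ?_ hq0.le
      rw [← ofReal_norm]
      refine ENNReal.ofReal_le_ofReal ?_
      have := hB R ⟨hR.1.le, hR.2⟩
      rwa [norm_norm] at this
    · rw [setLIntegral_const]
      exact ENNReal.mul_lt_top (ENNReal.rpow_lt_top_of_nonneg hq0.le ENNReal.ofReal_ne_top)
        measure_Ioc_lt_top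
  filter_upwards [(ENNReal.tendsto_nhds_zero.1 (inv_T_tendsto hA)) (ε / 2) hε2,
    eventually_gt_atTop (c k)] with T h3 h4
  refine (Pp_le hG hq (hc k) h4 x).trans ?_
  calc _ ≤ ε / 2 + ε / 2 := add_le_add h3 hk
    _ = ε := ENNReal.add_halves ε

lemma rpow_split {p q : ℝ} (hp : 0 < p) (hpq : p ≤ q) {δ : ℝ≥0∞} (h0 : δ ≠ 0) (ht : δ ≠ ⊤)
    (y : ℝ≥0∞) : y ^ p ≤ δ ^ p + δ ^ (p - q) * y ^ q := by
  rcases le_total y δ with h | h
  · exact (ENNReal.rpow_le_rpow h hp.le).trans le_self_add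
  · have hy0 : y ≠ 0 := (lt_of_lt_of_le (pos_iff_ne_zero.2 h0) h).ne'
    refine le_trans ?_ le_add_self
    have e1 : y ^ p ≤ δ ^ (p - q) * y ^ q := by
      rcases eq_or_ne y ⊤ with rfl | hyt
      · have hq : 0 < q := by linarith
        rw [ENNReal.top_rpow_of_pos hq, ENNReal.mul_top]
        · exact le_top
        · exact (ENNReal.rpow_pos (pos_iff_ne_zero.2 h0) ht).ne'
      · have e2 : y ^ p = y ^ (p - q) * y ^ q := by
          rw [← ENNReal.rpow_add _ _ hy0 hyt]; congr 1; ring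
        rw [e2]
        refine mul_le_mul' ?_ le_rfl
        have e3 : ∀ z : ℝ≥0∞, z ^ (p - q) = (z ^ (q - p))⁻¹ := fun z => by
          rw [← ENNReal.rpow_neg]; congr 1; ring
        rw [e3, e3]
        exact ENNReal.inv_le_inv.2 (ENNReal.rpow_le_rpow h (by linarith))
    exact e1

lemma Pp_of_larger {G f : En (m + 1) → ℂ} {p q : ℝ} (hp : 0 < p) (hpq : p ≤ q)
    {x : En (m + 1)} (h : Tendsto (Pp q G f x) atTop (𝓝 0)) :
    Tendsto (Pp p G f x) atTop (𝓝 0) := by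
  rw [ENNReal.tendsto_nhds_zero]
  intro ε hε
  set ε' : ℝ≥0∞ := min ε 1 / 2 with hε'
  have h1 : 0 < ε' := ENNReal.div_pos (lt_min hε one_pos).ne' (by simp)
  have h1t : ε' ≠ ⊤ := (ENNReal.div_lt_top (ne_of_lt (lt_of_le_of_lt (min_le_right _ _) (by simp)))
    (by simp)).ne
  set δ : ℝ≥0∞ := ε' ^ (1 / p) with hδ
  have hδ0 : δ ≠ 0 := (ENNReal.rpow_pos h1 h1t).ne'
  have hδt : δ ≠ ⊤ := ENNReal.rpow_ne_top_of_nonneg (by positivity) h1t
  have hδp : δ ^ p = ε' := by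
    rw [hδ, ← ENNReal.rpow_mul, one_div_mul_cancel hp.ne', ENNReal.rpow_one]
  have hct : δ ^ (p - q) ≠ ⊤ := by
    have e3 : δ ^ (p - q) = (δ ^ (q - p))⁻¹ := by rw [← ENNReal.rpow_neg]; congr 1; ring
    rw [e3]
    exact ENNReal.inv_ne_top.2 (ENNReal.rpow_pos (pos_iff_ne_zero.2 hδ0) hδt).ne'
  have h2 := ENNReal.Tendsto.const_mul (a := δ ^ (p - q)) h (Or.inr hct)
  rw [mul_zero] at h2
  filter_upwards [(ENNReal.tendsto_nhds_zero.1 h2) ε' h1, eventually_gt_atTop 0] with T hT hT0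
  have hTn : ENNReal.ofReal T ≠ 0 := (ENNReal.ofReal_pos.2 hT0).ne'
  calc Pp p G f x T ≤ (ENNReal.ofReal T)⁻¹ * ∫⁻ R in Ioc 0 T,
          (δ ^ p + δ ^ (p - q) * ‖ps G R x - f x‖ₑ ^ q) :=
        mul_le_mul' le_rfl (lintegral_mono fun R => rpow_split hp hpq hδ0 hδt _)
    _ = δ ^ p + δ ^ (p - q) * Pp q G f x T := by
        rw [lintegral_add_left measurable_const, setLIntegral_const, Real.volume_Ioc, sub_zero,
          lintegral_const_mul' _ _ hct, mul_add]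
        congr 1
        · rw [mul_comm (δ ^ p), ← mul_assoc, ENNReal.inv_mul_cancel hTn ENNReal.ofReal_ne_top,
            one_mul]
        · unfold Pp; ring
    _ ≤ ε' + ε' := add_le_add hδp.le hT
    _ = min ε 1 := ENNReal.add_halves _
    _ ≤ ε := min_le_left _ _

/-- **strong summability** -/
theorem strong_conv {G : En (m + 1) → ℂ} (hG : MemLp G 2) : ∃ f : En (m + 1) → ℂ,
    MemLp f 2 volume ∧ Tendsto (fun R => ∫⁻ x, ‖ps G R x - f x‖ₑ ^ 2) atTop (𝓝 0) ∧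
    ∀ᵐ x : En (m + 1), ∀ p : ℝ, 0 < p → Tendsto (Pp p G f x) atTop (𝓝 0) := by
  obtain ⟨f, hf, hfI⟩ := exists_lim hG
  refine ⟨f, hf, ?_, ?_⟩
  · refine tendsto_of_tendsto_of_tendsto_of_le_of_le' tendsto_const_nhds (It_tendsto hG)
      (Eventually.of_forall fun R => bot_le) ?_
    filter_upwards [eventually_ge_atTop 0] with R hR
    exact hfI R hR
  have hex : ∀ k : ℕ, ∃ c : ℕ, It G c < (2 : ℝ≥0∞)⁻¹ ^ (k + 1) := by
    intro k
    have h1 : (0 : ℝ≥0∞) < (2 : ℝ≥0∞)⁻¹ ^ (k + 1) := ENNReal.pow_pos (by simp) _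
    have h2 := (It_tendsto hG).comp tendsto_natCast_atTop_atTop
    exact (h2.eventually (gt_mem_nhds h1)).exists
  choose c hc using hex
  have hsum : ∑' k, It G (c k) ≠ ⊤ := by
    refine ne_of_lt (lt_of_le_of_lt (ENNReal.tsum_le_tsum fun k => (hc k).le) ?_)
    simp_rw [pow_succ]
    rw [ENNReal.tsum_mul_right, ENNReal.tsum_geometric]
    simp [ENNReal.mul_lt_top_iff]
  have hA : ∀ᵐ x : En (m + 1), Tendsto (fun k => ‖ps G (c k) x - f x‖ₑ) atTop (𝓝 0) := by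
    have hm : ∀ k : ℕ, AEMeasurable (fun x => ‖ps G (c k) x - f x‖ₑ ^ 2) volume := fun k =>
      (((ps_cont_x hG _).aestronglyMeasurable.sub hf.aestronglyMeasurable).enorm.pow_const 2)
    have h1 : ∫⁻ x, ∑' k : ℕ, ‖ps G (c k) x - f x‖ₑ ^ 2 ≠ ⊤ := by
      rw [lintegral_tsum hm]
      exact ne_of_lt (lt_of_le_of_lt (ENNReal.tsum_le_tsum fun k => hfI _ (Nat.cast_nonneg _))
        hsum.lt_top)
    filter_upwards [ae_lt_top' (AEMeasurable.tsum hm) h1] with x hx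
    have h2 := ENNReal.tendsto_atTop_zero_of_tsum_ne_top hx.ne
    have h3 := ((ENNReal.continuous_rpow_const (y := (1 / 2 : ℝ))).tendsto 0).comp h2
    rw [ENNReal.zero_rpow_of_pos (by norm_num)] at h3
    refine h3.congr fun k => ?_
    simp only [Function.comp_apply]
    rw [← ENNReal.rpow_natCast, ← ENNReal.rpow_mul]
    norm_num
  have hB : ∀ᵐ x : En (m + 1), ∀ q : ℕ, 2 ≤ q →
      Tendsto (fun k => 2 * Sm q (tail (c k) G) x) atTop (𝓝 0) := by
    rw [ae_all_iff]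
    intro q
    by_cases hq : 2 ≤ q
    swap
    · exact Eventually.of_forall fun x h => absurd h hq
    have hq' : (2 : ℝ) ≤ q := by exact_mod_cast hq
    have hm : ∀ k : ℕ, Measurable (fun x => (2 * Sm q (tail (c k) G) x) ^ 2) := fun k => by
      have ht := tail_memLp (c k : ℝ) hG
      unfold Sm
      exact (((Measurable.iSup fun j => (ps_cont_x ht _).measurable.enorm).add
        ((Measurable.tsum fun j => (Vb_meas ht _ _).pow_const 2).pow_const _)).const_mul 2).pow_const 2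
    have h1 : ∫⁻ x, ∑' k : ℕ, (2 * Sm q (tail (c k) G) x) ^ 2 ≠ ⊤ := by
      rw [lintegral_tsum fun k => (hm k).aemeasurable]
      have h2 : ∀ k : ℕ, ∫⁻ x, (2 * Sm q (tail (c k) G) x) ^ 2 ≤
          (8 * (cl m + 4)) * ENNReal.ofReal ((q : ℝ) ^ 2) * It G (c k) := fun k =>
        Sm_int (tail_memLp (c k : ℝ) hG) hq'
      refine ne_of_lt (lt_of_le_of_lt (ENNReal.tsum_le_tsum h2) ?_)
      rw [ENNReal.tsum_mul_left]
      refine ENNReal.mul_lt_top (ENNReal.mul_lt_top (ENNReal.mul_lt_top (by simp) ?_)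
        ENNReal.ofReal_lt_top) hsum.lt_top
      exact ENNReal.add_lt_top.2 ⟨cl_lt m, by simp⟩
    filter_upwards [ae_lt_top' (AEMeasurable.tsum fun k => (hm k).aemeasurable) h1]
      with x hx _
    have h2 := ENNReal.tendsto_atTop_zero_of_tsum_ne_top hx.ne
    have h3 := ((ENNReal.continuous_rpow_const (y := (1 / 2 : ℝ))).tendsto 0).comp h2
    rw [ENNReal.zero_rpow_of_pos (by norm_num)] at h3
    refine h3.congr fun k => ?_
    simp only [Function.comp_apply]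
    rw [← ENNReal.rpow_natCast, ← ENNReal.rpow_mul]
    norm_num
  filter_upwards [hA, hB] with x h1 h2 p hp
  obtain ⟨q, hq⟩ := exists_nat_ge (max p 2)
  have hq2 : (2 : ℝ) ≤ q := (le_max_right _ _).trans hq
  exact Pp_of_larger hp ((le_max_left _ _).trans hq)
    (Pp_tendsto hG hq2 (fun k => Nat.cast_nonneg _) h1 (h2 q (by exact_mod_cast hq2)))

end Pool.Agent.W2helper16.SM
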