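import Mathlib

/-! Dyadic chaining for the `q`-th means of a continuous function. -/

set_option autoImplicit false

open MeasureTheory Real Set Filter Topology Finset
open scoped ENNReal NNReal

namespace Pool.Agent.W2helper16.SM

/-- Minkowski for finite sums -/
lemma Lp_sum_le {α : Type*} [MeasurableSpace α] (μ : Measure α) {q : ℝ} (hq : 1 ≤ q)
    (f : ℕ → α → ℝ≥0∞) (hf : ∀ j, AEMeasurable (f j) μ) (J : ℕ) :
    (∫⁻ a, (∑ j ∈ range J, f j a) ^ q ∂μ) ^ (1 / q) ≤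
      ∑ j ∈ range J, (∫⁻ a, f j a ^ q ∂μ) ^ (1 / q) := by
  induction J with
  | zero =>
    have hq0 : 0 < q := by linarith
    simp [ENNReal.zero_rpow_of_pos hq0, hq0]
  | succ J ih =>
    rw [sum_range_succ]
    refine le_trans ?_ (add_le_add ih le_rfl)
    have h := ENNReal.lintegral_Lp_add_le (μ := μ) (f := fun a => ∑ j ∈ range J, f j a) (g := f J)
      (Finset.aemeasurable_fun_sum _ fun j _ => hf j) (hf J) hq
    refine le_trans (le_of_eq ?_) h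
    congr 1
    refine lintegral_congr fun a => ?_
    rw [sum_range_succ]
    rfl

/-- the dyadic square function -/
noncomputable def Bs (φ : ℝ → ℂ) (j : ℕ) : ℝ≥0∞ :=
  ∑ i ∈ range (2 ^ j), ‖φ ((i + 1 : ℝ) / 2 ^ j) - φ ((i : ℝ) / 2 ^ j)‖ₑ ^ 2

/-- dyadic approximation from below -/
noncomputable def da (j : ℕ) (t : ℝ) : ℝ := (⌊t * 2 ^ j⌋₊ : ℝ) / 2 ^ j

lemma da_zero {t : ℝ} (ht : t ∈ Ico (0 : ℝ) 1) : da 0 t = 0 := by
  unfold da
  have : ⌊t * 2 ^ 0⌋₊ = 0 := by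
    rw [Nat.floor_eq_zero]; simpa using ht.2
  rw [this]; simp

lemma da_tendsto {t : ℝ} (ht : 0 ≤ t) : Tendsto (fun j => da j t) atTop (𝓝 t) := by
  have h1 : ∀ j, t - (1 / 2) ^ j ≤ da j t := by
    intro j
    have h2 := Nat.lt_floor_add_one (t * 2 ^ j)
    unfold da
    rw [one_div_pow, le_div_iff₀ (by positivity), sub_mul, one_div, inv_mul_cancel₀ (by positivity)]
    linarith
  have h2 : ∀ j, da j t ≤ t := by
    intro j
    unfold da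
    rw [div_le_iff₀ (by positivity)]
    exact Nat.floor_le (by positivity)
  refine tendsto_of_tendsto_of_tendsto_of_le_of_le ?_ tendsto_const_nhds h1 h2
  have := (tendsto_pow_atTop_nhds_zero_of_lt_one (r := (1 / 2 : ℝ)) (by norm_num)
    (by norm_num)).const_sub t
  simpa using this

lemma da_meas (j : ℕ) : Measurable (da j) := by
  unfold da
  exact ((measurable_from_nat (f := fun m : ℕ => (m : ℝ))).comp
    (Nat.measurable_floor.comp (measurable_id.mul_const _))).div_const _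

/-- one step of the chain -/
noncomputable def stp (φ : ℝ → ℂ) (j : ℕ) (t : ℝ) : ℝ≥0∞ := ‖φ (da (j + 1) t) - φ (da j t)‖ₑ

lemma stp_meas {φ : ℝ → ℂ} (hφ : Continuous φ) (j : ℕ) : Measurable (stp φ j) :=
  ((hφ.measurable.comp (da_meas _)).sub (hφ.measurable.comp (da_meas _))).enorm

lemma stp_le {φ : ℝ → ℂ} {q : ℝ} (hq : 2 ≤ q) (j : ℕ) {t : ℝ} (ht : t ∈ Ico (0 : ℝ) 1) :
    stp φ j t ^ q ≤ ∑ i ∈ range (2 ^ (j + 1)),
      (Ico ((i + 1 : ℝ) / 2 ^ (j + 1)) ((i + 2 : ℝ) / 2 ^ (j + 1))).indicator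
        (fun _ => ‖φ ((i + 1 : ℝ) / 2 ^ (j + 1)) - φ ((i : ℝ) / 2 ^ (j + 1))‖ₑ ^ q) t := by
  have hq0 : 0 < q := by linarith
  set N := ⌊t * 2 ^ (j + 1)⌋₊ with hN
  have ht0 : 0 ≤ t * 2 ^ (j + 1) := mul_nonneg ht.1 (by positivity)
  have hN1 : (N : ℝ) ≤ t * 2 ^ (j + 1) := Nat.floor_le ht0
  have hN2 : t * 2 ^ (j + 1) < N + 1 := Nat.lt_floor_add_one _
  have hN3 : N < 2 ^ (j + 1) := by
    have : (N : ℝ) < 2 ^ (j + 1) := lt_of_le_of_lt hN1 (by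
      have := ht.2
      have h2 : (0 : ℝ) < 2 ^ (j + 1) := by positivity
      nlinarith)
    exact_mod_cast this
  have hM : ⌊t * 2 ^ j⌋₊ = N / 2 := by
    rw [hN, ← Nat.floor_div_ofNat]
    congr 1
    rw [pow_succ]; ring
  have hda1 : da (j + 1) t = (N : ℝ) / 2 ^ (j + 1) := rfl
  have hda0 : da j t = ((2 * (N / 2) : ℕ) : ℝ) / 2 ^ (j + 1) := by
    unfold da
    rw [hM, pow_succ]
    push_cast
    field_simp
  rcases Nat.even_or_odd N with he | ho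
  · have h1 : 2 * (N / 2) = N := Nat.two_mul_div_two_of_even he
    have h2 : stp φ j t = 0 := by
      unfold stp
      rw [hda1, hda0, h1]; simp
    rw [h2, ENNReal.zero_rpow_of_pos hq0]
    exact bot_le
  · have h1 : 2 * (N / 2) + 1 = N := Nat.two_mul_div_two_add_one_of_odd ho
    have hi : 2 * (N / 2) ∈ range (2 ^ (j + 1)) := by rw [Finset.mem_range]; omega
    refine le_trans ?_ (Finset.single_le_sum (f := fun i : ℕ =>
      (Ico ((i + 1 : ℝ) / 2 ^ (j + 1)) ((i + 2 : ℝ) / 2 ^ (j + 1))).indicator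
        (fun _ => ‖φ ((i + 1 : ℝ) / 2 ^ (j + 1)) - φ ((i : ℝ) / 2 ^ (j + 1))‖ₑ ^ q) t)
        (fun _ _ => bot_le) hi)
    have h3 : (((2 * (N / 2) : ℕ) : ℝ) + 1) = N := by exact_mod_cast h1
    have h4 : (((2 * (N / 2) : ℕ) : ℝ) + 2) = N + 1 := by linarith
    rw [h4, h3, indicator_of_mem]
    · unfold stp
      rw [hda1, hda0]
    · constructor
      · rw [div_le_iff₀ (by positivity)]; exact hN1
      · rw [lt_div_iff₀ (by positivity)]; exact hN2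

/-- for `q ≥ 2` the `ℓ^q` sum is at most a power of the `ℓ^2` sum -/
lemma sum_rpow_le {ι : Type*} (s : Finset ι) (c : ι → ℝ≥0∞) {q : ℝ} (hq : 2 ≤ q) :
    ∑ i ∈ s, c i ^ q ≤ (∑ i ∈ s, c i ^ 2) ^ (q / 2) := by
  have hq0 : 0 ≤ q - 2 := by linarith
  have h1 : ∀ i ∈ s, c i ≤ (∑ i ∈ s, c i ^ 2) ^ (1 / 2 : ℝ) := by
    intro i hi
    have : c i ^ 2 ≤ ∑ i ∈ s, c i ^ 2 := Finset.single_le_sum (f := fun i => c i ^ 2)
      (fun _ _ => bot_le) hi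
    calc c i = (c i ^ 2) ^ (1 / 2 : ℝ) := by
          rw [← ENNReal.rpow_natCast, ← ENNReal.rpow_mul]; norm_num
      _ ≤ _ := ENNReal.rpow_le_rpow this (by norm_num)
  have h2 : ∀ y : ℝ≥0∞, y ^ q = y ^ (q - 2) * y ^ 2 := by
    intro y
    rw [← ENNReal.rpow_natCast y 2, ← ENNReal.rpow_add_of_nonneg _ _ hq0 (by norm_num)]
    norm_num
  calc ∑ i ∈ s, c i ^ q ≤ ∑ i ∈ s, ((∑ i ∈ s, c i ^ 2) ^ (1 / 2 : ℝ)) ^ (q - 2) * c i ^ 2 := by
        refine Finset.sum_le_sum fun i hi => ?_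
        rw [h2]
        exact mul_le_mul' (ENNReal.rpow_le_rpow (h1 i hi) hq0) le_rfl
    _ = (∑ i ∈ s, c i ^ 2) ^ ((q - 2) / 2) * (∑ i ∈ s, c i ^ 2) ^ (1 : ℝ) := by
        rw [← Finset.mul_sum, ← ENNReal.rpow_mul, ENNReal.rpow_one]
        congr 2
        ring
    _ = _ := by
        rw [← ENNReal.rpow_add_of_nonneg _ _ (by linarith) (by norm_num)]
        congr 1
        ring

lemma stp_int {φ : ℝ → ℂ} {q : ℝ} (hq : 2 ≤ q) (j : ℕ) :
    ∫⁻ t in Ico (0 : ℝ) 1, stp φ j t ^ q ≤ (2 : ℝ≥0∞)⁻¹ ^ (j + 1) * Bs φ (j + 1) ^ (q / 2) := by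
  have hvol : ∀ i : ℕ, volume (Ico ((i + 1 : ℝ) / 2 ^ (j + 1)) ((i + 2 : ℝ) / 2 ^ (j + 1))) =
      (2 : ℝ≥0∞)⁻¹ ^ (j + 1) := by
    intro i
    rw [Real.volume_Ico, ← sub_div]
    have : ((i + 2 : ℝ) - (i + 1)) / 2 ^ (j + 1) = (2⁻¹) ^ (j + 1) := by
      rw [inv_pow]; ring
    rw [this, ENNReal.ofReal_pow (by norm_num), ENNReal.ofReal_inv_of_pos (by norm_num)]
    simp
  calc ∫⁻ t in Ico (0 : ℝ) 1, stp φ j t ^ q
      ≤ ∫⁻ t in Ico (0 : ℝ) 1, ∑ i ∈ range (2 ^ (j + 1)),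
          (Ico ((i + 1 : ℝ) / 2 ^ (j + 1)) ((i + 2 : ℝ) / 2 ^ (j + 1))).indicator
          (fun _ => ‖φ ((i + 1 : ℝ) / 2 ^ (j + 1)) - φ ((i : ℝ) / 2 ^ (j + 1))‖ₑ ^ q) t :=
        setLIntegral_mono' measurableSet_Ico fun t ht => stp_le hq j ht
    _ ≤ ∫⁻ t, ∑ i ∈ range (2 ^ (j + 1)),
          (Ico ((i + 1 : ℝ) / 2 ^ (j + 1)) ((i + 2 : ℝ) / 2 ^ (j + 1))).indicator
          (fun _ => ‖φ ((i + 1 : ℝ) / 2 ^ (j + 1)) - φ ((i : ℝ) / 2 ^ (j + 1))‖ₑ ^ q) t :=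
        setLIntegral_le_lintegral _ _
    _ = ∑ i ∈ range (2 ^ (j + 1)),
          ‖φ ((i + 1 : ℝ) / 2 ^ (j + 1)) - φ ((i : ℝ) / 2 ^ (j + 1))‖ₑ ^ q *
          (2 : ℝ≥0∞)⁻¹ ^ (j + 1) := by
        rw [lintegral_finsetSum _ fun i _ => measurable_const.indicator measurableSet_Ico]
        refine Finset.sum_congr rfl fun i _ => ?_
        rw [lintegral_indicator_const measurableSet_Ico, hvol]
    _ ≤ _ := by
        rw [← Finset.sum_mul, mul_comm]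
        exact mul_le_mul' le_rfl (sum_rpow_le _ _ hq)

/-- **chaining** -/
theorem chain {φ : ℝ → ℂ} (hφ : Continuous φ) {q : ℝ} (hq : 2 ≤ q) :
    (∫⁻ t in Ico (0 : ℝ) 1, ‖φ t - φ 0‖ₑ ^ q) ^ (1 / q) ≤
      ∑' j : ℕ, ((2 : ℝ≥0∞)⁻¹ ^ (1 / q)) ^ (j + 1) * Bs φ (j + 1) ^ (1 / 2 : ℝ) := by
  have hq0 : 0 < q := by linarith
  set Z := ∑' j : ℕ, ((2 : ℝ≥0∞)⁻¹ ^ (1 / q)) ^ (j + 1) * Bs φ (j + 1) ^ (1 / 2 : ℝ) with hZ
  have hpt : ∀ J : ℕ, ∀ t ∈ Ico (0 : ℝ) 1, ‖φ (da J t) - φ 0‖ₑ ≤ ∑ j ∈ range J, stp φ j t := by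
    intro J t ht
    induction J with
    | zero => rw [da_zero ht]; simp
    | succ J ih =>
      rw [sum_range_succ]
      have : φ (da (J + 1) t) - φ 0 = (φ (da J t) - φ 0) + (φ (da (J + 1) t) - φ (da J t)) := by ring
      rw [this]
      exact (enorm_add_le _ _).trans (add_le_add ih le_rfl)
  have hJ : ∀ J : ℕ, ∫⁻ t in Ico (0 : ℝ) 1, ‖φ (da J t) - φ 0‖ₑ ^ q ≤ Z ^ q := by
    intro J
    have h1 : (∫⁻ t in Ico (0 : ℝ) 1, ‖φ (da J t) - φ 0‖ₑ ^ q) ^ (1 / q) ≤ Z := by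
      calc (∫⁻ t in Ico (0 : ℝ) 1, ‖φ (da J t) - φ 0‖ₑ ^ q) ^ (1 / q)
          ≤ (∫⁻ t in Ico (0 : ℝ) 1, (∑ j ∈ range J, stp φ j t) ^ q) ^ (1 / q) := by
            refine ENNReal.rpow_le_rpow ?_ (by positivity)
            exact setLIntegral_mono' measurableSet_Ico fun t ht =>
              ENNReal.rpow_le_rpow (hpt J t ht) hq0.le
        _ ≤ ∑ j ∈ range J, (∫⁻ t in Ico (0 : ℝ) 1, stp φ j t ^ q) ^ (1 / q) :=
            Lp_sum_le _ (by linarith) _ (fun j => (stp_meas hφ j).aemeasurable) J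
        _ ≤ ∑ j ∈ range J, ((2 : ℝ≥0∞)⁻¹ ^ (1 / q)) ^ (j + 1) * Bs φ (j + 1) ^ (1 / 2 : ℝ) := by
            refine Finset.sum_le_sum fun j _ => ?_
            refine (ENNReal.rpow_le_rpow (stp_int hq j) (by positivity)).trans (le_of_eq ?_)
            rw [ENNReal.mul_rpow_of_nonneg _ _ (by positivity), ← ENNReal.rpow_mul,
              ← ENNReal.rpow_natCast, ← ENNReal.rpow_mul, ← ENNReal.rpow_natCast,
              ← ENNReal.rpow_mul]
            congr 2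
            · ring
            · field_simp
        _ ≤ Z := ENNReal.sum_le_tsum _
    calc ∫⁻ t in Ico (0 : ℝ) 1, ‖φ (da J t) - φ 0‖ₑ ^ q
        = ((∫⁻ t in Ico (0 : ℝ) 1, ‖φ (da J t) - φ 0‖ₑ ^ q) ^ (1 / q)) ^ q := by
          rw [← ENNReal.rpow_mul, one_div_mul_cancel hq0.ne', ENNReal.rpow_one]
      _ ≤ Z ^ q := ENNReal.rpow_le_rpow h1 hq0.le
  have hlim : ∫⁻ t in Ico (0 : ℝ) 1, ‖φ t - φ 0‖ₑ ^ q ≤ Z ^ q := by
    have h2 : ∀ t ∈ Ico (0 : ℝ) 1, ‖φ t - φ 0‖ₑ ^ q =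
        liminf (fun J => ‖φ (da J t) - φ 0‖ₑ ^ q) atTop := by
      intro t ht
      symm
      refine Tendsto.liminf_eq ?_
      have h3 : Tendsto (fun J => φ (da J t) - φ 0) atTop (𝓝 (φ t - φ 0)) :=
        ((hφ.tendsto t).comp (da_tendsto ht.1)).sub_const _
      exact ((ENNReal.continuous_rpow_const (y := q)).tendsto _).comp
        ((continuous_enorm.tendsto _).comp h3)
    rw [setLIntegral_congr_fun measurableSet_Ico h2]
    refine (lintegral_liminf_le fun J => ?_).trans ?_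
    · exact (((hφ.measurable.comp (da_meas _)).sub measurable_const).enorm).pow_const q
    · exact liminf_le_of_frequently_le' (Frequently.of_forall hJ)
  calc (∫⁻ t in Ico (0 : ℝ) 1, ‖φ t - φ 0‖ₑ ^ q) ^ (1 / q) ≤ (Z ^ q) ^ (1 / q) :=
        ENNReal.rpow_le_rpow hlim (by positivity)
    _ = Z := by rw [← ENNReal.rpow_mul, mul_one_div_cancel hq0.ne', ENNReal.rpow_one]

/-- the sum of the weights -/
lemma weight_sum {q : ℝ} (hq : 2 ≤ q) :
    ∑' j : ℕ, ((2 : ℝ≥0∞)⁻¹ ^ (1 / q)) ^ (j + 1) ≤ ENNReal.ofReal (2 * q) := by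
  have hq0 : 0 < q := by linarith
  set r : ℝ := (2 : ℝ)⁻¹ ^ (1 / q) with hr
  have hr0 : 0 < r := by positivity
  have hr1 : r < 1 := Real.rpow_lt_one (by norm_num) (by norm_num) (by positivity)
  have h1 : (2 : ℝ≥0∞)⁻¹ ^ (1 / q) = ENNReal.ofReal r := by
    rw [hr, ← ENNReal.ofReal_rpow_of_pos (by norm_num), ENNReal.ofReal_inv_of_pos (by norm_num)]
    simp
  rw [h1]
  have h2 : ∀ j : ℕ, ENNReal.ofReal r ^ (j + 1) = ENNReal.ofReal (r ^ (j + 1)) := fun j =>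
    (ENNReal.ofReal_pow hr0.le _).symm
  simp_rw [h2]
  have hs : Summable fun j : ℕ => r ^ (j + 1) :=
    (summable_nat_add_iff 1).2 (summable_geometric_of_lt_one hr0.le hr1)
  rw [← ENNReal.ofReal_tsum_of_nonneg (fun j => by positivity) hs]
  refine ENNReal.ofReal_le_ofReal ?_
  have h3 : ∑' j : ℕ, r ^ (j + 1) = r * (1 - r)⁻¹ := by
    simp_rw [pow_succ']
    rw [tsum_mul_left, tsum_geometric_of_lt_one hr0.le hr1]
  rw [h3, ← div_eq_mul_inv, div_le_iff₀ (by linarith)]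
  -- `r⁻¹ = 2^(1/q) ≥ 1 + log 2 / q`
  have h4 : 1 + 1 / (2 * q) ≤ r⁻¹ := by
    have e1 : r⁻¹ = rexp (Real.log 2 * (1 / q)) := by
      rw [hr, Real.inv_rpow (by norm_num), inv_inv, Real.rpow_def_of_pos (by norm_num)]
    rw [e1]
    have e2 := Real.add_one_le_exp (Real.log 2 * (1 / q))
    have e3 : 1 / (2 * q) ≤ Real.log 2 * (1 / q) := by
      have e4 : 1 / (2 * q) = (1 / 2) * (1 / q) := by field_simp
      rw [e4]
      exact mul_le_mul_of_nonneg_right (by linarith [Real.log_two_gt_d9]) (by positivity)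
    linarith
  have h5 : r * (1 + 1 / (2 * q)) ≤ 1 := by
    calc r * (1 + 1 / (2 * q)) ≤ r * r⁻¹ := mul_le_mul_of_nonneg_left h4 hr0.le
      _ = 1 := mul_inv_cancel₀ hr0.ne'
  have h6 : r + r * (1 / (2 * q)) ≤ 1 := by linarith
  have h7 : r * (1 / (2 * q)) * (2 * q) = r := by field_simp
  nlinarith

end Pool.Agent.W2helper16.SM
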