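import Pool.Agent.W2helper16.SM.Lac
import Pool.Agent.W2helper16.SM.Chain

/-! The `q`-th means over dyadic blocks of radii and the strong maximal inequality. -/

set_option autoImplicit false

open MeasureTheory Real Set Filter Topology Metric
open scoped ENNReal NNReal RealInnerProductSpace

namespace Pool.Agent.W2helper16.SM

open Pool.Agent.Helper93.Sph (ek Fi ek_norm ek_cont ek_int Fi_cont gint gauss_ft ps ps_eq shell
  shell_meas ind_int bessel ps_cont_x ps_cont_R ps_sub piece_l2 shell_finite)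

/-- Cauchy-Schwarz for series -/
lemma tsum_cs (w b : ℕ → ℝ≥0∞) :
    (∑' j, w j * b j ^ (1 / 2 : ℝ)) ^ 2 ≤ (∑' j, w j) * ∑' j, w j * b j := by
  have h2 : ∀ y : ℝ≥0∞, (y ^ (1 / 2 : ℝ)) ^ (2 : ℝ) = y := fun y => by
    rw [← ENNReal.rpow_mul]; norm_num
  have h := ENNReal.lintegral_mul_le_Lp_mul_Lq (Measure.count : Measure ℕ)
    (p := 2) (q := 2) (by constructor <;> norm_num)
    (f := fun j => w j ^ (1 / 2 : ℝ)) (g := fun j => (w j * b j) ^ (1 / 2 : ℝ))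
    (measurable_from_nat).aemeasurable (measurable_from_nat).aemeasurable
  simp only [Pi.mul_apply, lintegral_count, h2] at h
  have e1 : ∀ j, w j ^ (1 / 2 : ℝ) * (w j * b j) ^ (1 / 2 : ℝ) = w j * b j ^ (1 / 2 : ℝ) := by
    intro j
    rw [ENNReal.mul_rpow_of_nonneg _ _ (by norm_num), ← mul_assoc,
      ← ENNReal.rpow_add_of_nonneg _ _ (by norm_num) (by norm_num)]
    norm_num
  simp_rw [e1] at h
  calc (∑' j, w j * b j ^ (1 / 2 : ℝ)) ^ 2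
      ≤ ((∑' j, w j) ^ (1 / 2 : ℝ) * (∑' j, w j * b j) ^ (1 / 2 : ℝ)) ^ 2 := pow_le_pow_left' h 2
    _ = _ := by
        rw [mul_pow, ← ENNReal.rpow_natCast, ← ENNReal.rpow_natCast]
        push_cast
        rw [h2, h2]

variable {m : ℕ}

/-- the partial sums on a block -/
noncomputable def ph (G : En (m + 1) → ℂ) (a : ℝ) (x : En (m + 1)) (t : ℝ) : ℂ :=
  ps G (a * (1 + t)) x

lemma ph_cont {G : En (m + 1) → ℂ} (hG : MemLp G 2) (a : ℝ) (x : En (m + 1)) :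
    Continuous (ph G a x) := (ps_cont_R hG x).comp (by fun_prop)

/-- the majorant on a block -/
noncomputable def Vb (q : ℝ) (G : En (m + 1) → ℂ) (a : ℝ) (x : En (m + 1)) : ℝ≥0∞ :=
  ∑' j : ℕ, ((2 : ℝ≥0∞)⁻¹ ^ (1 / q)) ^ (j + 1) * Bs (ph G a x) (j + 1) ^ (1 / 2 : ℝ)

lemma Bs_meas {G : En (m + 1) → ℂ} (hG : MemLp G 2) (a : ℝ) (j : ℕ) :
    Measurable fun x => Bs (ph G a x) j := by
  unfold Bs ph
  exact Finset.measurable_fun_sum _ fun i _ =>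
    (((ps_cont_x hG _).measurable.sub (ps_cont_x hG _).measurable).enorm.pow_const 2)

lemma Vb_meas {G : En (m + 1) → ℂ} (hG : MemLp G 2) (q a : ℝ) : Measurable (Vb q G a) := by
  unfold Vb
  exact Measurable.tsum fun j => ((Bs_meas hG a _).pow_const _).const_mul _

lemma Bs_int {G : En (m + 1) → ℂ} (hG : MemLp G 2) {a : ℝ} (ha : 0 < a) (j : ℕ) :
    ∫⁻ x, Bs (ph G a x) j ≤ ∫⁻ ξ in shell (m + 1) a (2 * a), ‖G ξ‖ₑ ^ 2 := by
  set r : ℕ → ℝ := fun i => a * (1 + (i : ℝ) / 2 ^ j) with hr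
  have hr0 : ∀ i, 0 ≤ r i := fun i => by simp only [hr]; positivity
  have hmono : Monotone r := by
    intro i k hik
    simp only [hr]
    have : (i : ℝ) ≤ k := by exact_mod_cast hik
    gcongr
  have hr1 : ∀ i : ℕ, a * (1 + ((i : ℝ) + 1) / 2 ^ j) = r (i + 1) := fun i => by
    simp only [hr]; push_cast; ring
  have h1 : ∀ i : ℕ, ∫⁻ x, ‖ph G a x (((i : ℝ) + 1) / 2 ^ j) - ph G a x ((i : ℝ) / 2 ^ j)‖ₑ ^ 2 ≤
      ∫⁻ ξ in shell (m + 1) (r i) (r (i + 1)), ‖G ξ‖ₑ ^ 2 := by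
    intro i
    have h2 : ∀ x, ph G a x (((i : ℝ) + 1) / 2 ^ j) - ph G a x ((i : ℝ) / 2 ^ j) =
        Fi ((shell (m + 1) (r i) (r (i + 1))).indicator G) x := by
      intro x
      rw [← ps_sub hG (hr0 i) (hmono (Nat.le_succ i)) x]
      unfold ph
      rw [hr1]
    simp_rw [h2]
    exact piece_l2 hG (shell_meas _ _ _) (shell_finite _ _ _)
  have hdis : (Finset.range (2 ^ j) : Set ℕ).PairwiseDisjoint
      fun i => shell (m + 1) (r i) (r (i + 1)) := by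
    have key : ∀ i k : ℕ, i < k → Disjoint (shell (m + 1) (r i) (r (i + 1)))
        (shell (m + 1) (r k) (r (k + 1))) := by
      intro i k hik
      rw [Set.disjoint_left]
      rintro ξ h2 h3
      exact absurd (h2.2.trans_le (hmono hik)) (not_lt.2 h3.1)
    intro i _ k _ hik
    rcases lt_or_gt_of_ne hik with h | h
    · exact key i k h
    · exact (key k i h).symm
  unfold Bs
  rw [lintegral_finsetSum _ fun i _ => by
    unfold ph
    exact (((ps_cont_x hG _).measurable.sub (ps_cont_x hG _).measurable).enorm.pow_const 2)]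
  refine (Finset.sum_le_sum fun i _ => h1 i).trans ?_
  rw [← lintegral_biUnion_finset hdis fun i _ => shell_meas _ _ _]
  refine lintegral_mono_set ?_
  refine iUnion₂_subset fun i hi => ?_
  rintro ξ ⟨h2, h3⟩
  have hi' : i < 2 ^ j := by simpa using hi
  constructor
  · refine le_trans ?_ h2
    have := hmono (Nat.zero_le i)
    simpa [hr] using this
  · refine h3.trans_le ?_
    have h4 : r (i + 1) ≤ r (2 ^ j) := hmono hi'
    refine h4.trans (le_of_eq ?_)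
    simp only [hr]
    push_cast
    rw [div_self (by positivity)]
    ring

lemma Vb_int {G : En (m + 1) → ℂ} (hG : MemLp G 2) {q : ℝ} (hq : 2 ≤ q) {a : ℝ} (ha : 0 < a) :
    ∫⁻ x, Vb q G a x ^ 2 ≤ ENNReal.ofReal (4 * q ^ 2) *
      ∫⁻ ξ in shell (m + 1) a (2 * a), ‖G ξ‖ₑ ^ 2 := by
  set w : ℕ → ℝ≥0∞ := fun j => ((2 : ℝ≥0∞)⁻¹ ^ (1 / q)) ^ (j + 1) with hw
  have hW : ∑' j, w j ≤ ENNReal.ofReal (2 * q) := weight_sum hq
  calc ∫⁻ x, Vb q G a x ^ 2 ≤ ∫⁻ x, (∑' j, w j) * ∑' j, w j * Bs (ph G a x) (j + 1) :=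
        lintegral_mono fun x => tsum_cs w _
    _ = (∑' j, w j) * ∑' j, w j * ∫⁻ x, Bs (ph G a x) (j + 1) := by
        rw [lintegral_const_mul _ (Measurable.tsum fun j => (Bs_meas hG a _).const_mul _),
          lintegral_tsum fun j => ((Bs_meas hG a _).const_mul _).aemeasurable]
        congr 1
        refine tsum_congr fun j => ?_
        rw [lintegral_const_mul _ (Bs_meas hG a _)]
    _ ≤ (∑' j, w j) * ∑' j, w j * ∫⁻ ξ in shell (m + 1) a (2 * a), ‖G ξ‖ₑ ^ 2 := by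
        refine mul_le_mul' le_rfl (ENNReal.tsum_le_tsum fun j => ?_)
        exact mul_le_mul' le_rfl (Bs_int hG ha _)
    _ = (∑' j, w j) * (∑' j, w j) * ∫⁻ ξ in shell (m + 1) a (2 * a), ‖G ξ‖ₑ ^ 2 := by
        rw [ENNReal.tsum_mul_right, mul_assoc]
    _ ≤ ENNReal.ofReal (2 * q) * ENNReal.ofReal (2 * q) *
          ∫⁻ ξ in shell (m + 1) a (2 * a), ‖G ξ‖ₑ ^ 2 :=
        mul_le_mul' (mul_le_mul' hW hW) le_rfl
    _ = _ := by
        rw [← ENNReal.ofReal_mul (by linarith)]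
        congr 2
        ring

/-- change of variables on a block -/
lemma block_cv {g : ℝ → ℝ≥0∞} {a : ℝ} (ha : 0 < a) :
    ∫⁻ R in Ico a (2 * a), g R = ENNReal.ofReal a * ∫⁻ t in Ico (0 : ℝ) 1, g (a * (1 + t)) := by
  have himg : (fun t : ℝ => a * (1 + t)) '' Ico (0 : ℝ) 1 = Ico a (2 * a) := by
    ext R
    constructor
    · rintro ⟨t, ⟨h1, h2⟩, rfl⟩
      constructor <;> simp only <;> nlinarith
    · rintro ⟨h1, h2⟩
      refine ⟨R / a - 1, ⟨?_, ?_⟩, ?_⟩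
      · rw [sub_nonneg, le_div_iff₀ ha]; linarith
      · rw [sub_lt_iff_lt_add, div_lt_iff₀ ha]; linarith
      · simp only; field_simp; ring
  rw [← himg, lintegral_image_eq_lintegral_abs_deriv_mul measurableSet_Ico
    (f' := fun _ => a) (fun t _ => ?_) (fun s _ t _ h => ?_)]
  · rw [← lintegral_const_mul' _ _ ENNReal.ofReal_ne_top]
    rw [abs_of_pos ha]
  · have : HasDerivAt (fun t : ℝ => a * (1 + t)) (a * 1) t :=
      ((hasDerivAt_id t).const_add 1).const_mul a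
    rw [mul_one] at this
    exact this.hasDerivWithinAt
  · have h' : a * (1 + s) = a * (1 + t) := h
    have := mul_left_cancel₀ ha.ne' h'
    linarith

/-- the sum of the two majorants -/
noncomputable def Sm (q : ℝ) (G : En (m + 1) → ℂ) (x : En (m + 1)) : ℝ≥0∞ :=
  (⨆ k : ℤ, ‖ps G (2 ^ k) x‖ₑ) + (∑' k : ℤ, Vb q G (2 ^ k) x ^ 2) ^ (1 / 2 : ℝ)

lemma block_le {G : En (m + 1) → ℂ} (hG : MemLp G 2) {q : ℝ} (hq : 2 ≤ q) (k : ℤ)
    (x : En (m + 1)) :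
    ∫⁻ R in Ico ((2 : ℝ) ^ k) (2 * 2 ^ k), ‖ps G R x‖ₑ ^ q ≤
      ENNReal.ofReal (2 ^ k) * Sm q G x ^ q := by
  have hq0 : 0 < q := by linarith
  rw [block_cv (by positivity)]
  refine mul_le_mul' le_rfl ?_
  have h1 : (∫⁻ t in Ico (0 : ℝ) 1, ‖ps G (2 ^ k * (1 + t)) x‖ₑ ^ q) ^ (1 / q) ≤ Sm q G x := by
    have hc := chain (ph_cont hG (2 ^ k) x) hq
    have h0 : ph G (2 ^ k) x 0 = ps G (2 ^ k) x := by unfold ph; norm_num
    have hmeas : Measurable (ph G (2 ^ k) x) := (ph_cont hG _ x).measurable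
    calc (∫⁻ t in Ico (0 : ℝ) 1, ‖ps G (2 ^ k * (1 + t)) x‖ₑ ^ q) ^ (1 / q)
        ≤ (∫⁻ t in Ico (0 : ℝ) 1, ((fun _ => ‖ps G (2 ^ k) x‖ₑ : ℝ → ℝ≥0∞) +
            (fun t => ‖ph G (2 ^ k) x t - ph G (2 ^ k) x 0‖ₑ : ℝ → ℝ≥0∞)) t ^ q) ^ (1 / q) := by
          refine ENNReal.rpow_le_rpow (lintegral_mono fun t => ENNReal.rpow_le_rpow ?_ hq0.le)
            (by positivity)
          simp only [Pi.add_apply]
          have : ps G (2 ^ k * (1 + t)) x = ps G (2 ^ k) x + (ph G (2 ^ k) x t -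
              ph G (2 ^ k) x 0) := by
            rw [h0]; unfold ph; ring
          rw [this]
          exact enorm_add_le _ _
      _ ≤ (∫⁻ _ in Ico (0 : ℝ) 1, ‖ps G (2 ^ k) x‖ₑ ^ q) ^ (1 / q) +
            (∫⁻ t in Ico (0 : ℝ) 1, ‖ph G (2 ^ k) x t - ph G (2 ^ k) x 0‖ₑ ^ q) ^ (1 / q) :=
          ENNReal.lintegral_Lp_add_le aemeasurable_const
            ((hmeas.sub measurable_const).enorm.aemeasurable) (by linarith)
      _ ≤ ‖ps G (2 ^ k) x‖ₑ + Vb q G (2 ^ k) x := by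
          refine add_le_add (le_of_eq ?_) hc
          rw [setLIntegral_const, Real.volume_Ico, sub_zero, ENNReal.ofReal_one, mul_one,
            ← ENNReal.rpow_mul, mul_one_div_cancel hq0.ne', ENNReal.rpow_one]
      _ ≤ Sm q G x := by
          unfold Sm
          refine add_le_add (le_iSup (fun k : ℤ => ‖ps G (2 ^ k) x‖ₑ) k) ?_
          calc Vb q G (2 ^ k) x = (Vb q G (2 ^ k) x ^ 2) ^ (1 / 2 : ℝ) := by
                rw [← ENNReal.rpow_natCast, ← ENNReal.rpow_mul]; norm_num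
            _ ≤ _ := ENNReal.rpow_le_rpow (ENNReal.le_tsum (f := fun k : ℤ =>
                Vb q G (2 ^ k) x ^ 2) k) (by norm_num)
  calc ∫⁻ t in Ico (0 : ℝ) 1, ‖ps G (2 ^ k * (1 + t)) x‖ₑ ^ q
      = ((∫⁻ t in Ico (0 : ℝ) 1, ‖ps G (2 ^ k * (1 + t)) x‖ₑ ^ q) ^ (1 / q)) ^ q := by
        rw [← ENNReal.rpow_mul, one_div_mul_cancel hq0.ne', ENNReal.rpow_one]
    _ ≤ _ := ENNReal.rpow_le_rpow h1 hq0.le

/-- the `q`-th mean of the partial sums over `(0, T]` -/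
noncomputable def Mq (q : ℝ) (G : En (m + 1) → ℂ) (T : ℝ) (x : En (m + 1)) : ℝ≥0∞ :=
  ((ENNReal.ofReal T)⁻¹ * ∫⁻ R in Ioc 0 T, ‖ps G R x‖ₑ ^ q) ^ (1 / q)

lemma Mq_le {G : En (m + 1) → ℂ} (hG : MemLp G 2) {q : ℝ} (hq : 2 ≤ q) {T : ℝ} (hT : 0 < T)
    (x : En (m + 1)) : Mq q G T x ≤ 2 * Sm q G x := by
  have hq0 : 0 < q := by linarith
  obtain ⟨k, hk1, hk2⟩ := exists_mem_Ioc_zpow hT (one_lt_two : (1 : ℝ) < 2)
  set S := Sm q G x with hS
  have hcov : Ioo (0 : ℝ) (2 ^ (k + 1)) ⊆ ⋃ l : ℕ, Ico ((2 : ℝ) ^ (k - l)) (2 * 2 ^ (k - l)) := by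
    rintro R ⟨h1, h2⟩
    obtain ⟨j, hj1, hj2⟩ := exists_mem_Ico_zpow h1 (one_lt_two : (1 : ℝ) < 2)
    have hjk : j < k + 1 := by
      by_contra h
      push Not at h
      have := zpow_le_zpow_right₀ (one_le_two : (1 : ℝ) ≤ 2) h
      linarith
    obtain ⟨l, hl⟩ : ∃ l : ℕ, j = k - l := ⟨(k - j).toNat, by omega⟩
    refine mem_iUnion.2 ⟨l, ?_⟩
    rw [← hl]
    refine ⟨hj1, ?_⟩
    rwa [zpow_add_one₀ (by norm_num), mul_comm] at hj2
  have hsum : ∑' l : ℕ, ENNReal.ofReal ((2 : ℝ) ^ (k - l)) = ENNReal.ofReal (2 ^ (k + 1)) := by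
    have h1 : ∀ l : ℕ, ENNReal.ofReal ((2 : ℝ) ^ (k - l)) =
        ENNReal.ofReal (2 ^ k) * (2 : ℝ≥0∞)⁻¹ ^ l := by
      intro l
      rw [zpow_sub₀ (by norm_num), zpow_natCast, div_eq_mul_inv,
        ENNReal.ofReal_mul (by positivity), ← inv_pow, ENNReal.ofReal_pow (by norm_num),
        ENNReal.ofReal_inv_of_pos (by norm_num)]
      simp
    simp_rw [h1]
    rw [ENNReal.tsum_mul_left, ENNReal.tsum_geometric, ENNReal.one_sub_inv_two, inv_inv,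
      zpow_add_one₀ (by norm_num), ENNReal.ofReal_mul (by positivity)]
    simp
  have h1 : ∫⁻ R in Ioc 0 T, ‖ps G R x‖ₑ ^ q ≤ ENNReal.ofReal (2 ^ (k + 1)) * S ^ q := by
    calc ∫⁻ R in Ioc 0 T, ‖ps G R x‖ₑ ^ q
        ≤ ∫⁻ R in Ioc (0 : ℝ) (2 ^ (k + 1)), ‖ps G R x‖ₑ ^ q :=
          lintegral_mono_set (Ioc_subset_Ioc_right hk2)
      _ = ∫⁻ R in Ioo (0 : ℝ) (2 ^ (k + 1)), ‖ps G R x‖ₑ ^ q :=
          setLIntegral_congr Ioo_ae_eq_Ioc.symm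
      _ ≤ ∫⁻ R in ⋃ l : ℕ, Ico ((2 : ℝ) ^ (k - l)) (2 * 2 ^ (k - l)), ‖ps G R x‖ₑ ^ q :=
          lintegral_mono_set hcov
      _ ≤ ∑' l : ℕ, ∫⁻ R in Ico ((2 : ℝ) ^ (k - l)) (2 * 2 ^ (k - l)), ‖ps G R x‖ₑ ^ q :=
          lintegral_iUnion_le _ _
      _ ≤ ∑' l : ℕ, ENNReal.ofReal ((2 : ℝ) ^ (k - l)) * S ^ q :=
          ENNReal.tsum_le_tsum fun l => block_le hG hq _ x
      _ = _ := by rw [ENNReal.tsum_mul_right, hsum]
  have h2 : ENNReal.ofReal (2 ^ (k + 1)) ≤ 2 * ENNReal.ofReal T := by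
    have : (2 : ℝ≥0∞) = ENNReal.ofReal 2 := by simp
    rw [this, ← ENNReal.ofReal_mul (by norm_num)]
    refine ENNReal.ofReal_le_ofReal ?_
    rw [zpow_add_one₀ (by norm_num)]
    linarith
  have hT0 : ENNReal.ofReal T ≠ 0 := (ENNReal.ofReal_pos.2 hT).ne'
  unfold Mq
  calc ((ENNReal.ofReal T)⁻¹ * ∫⁻ R in Ioc 0 T, ‖ps G R x‖ₑ ^ q) ^ (1 / q)
      ≤ ((ENNReal.ofReal T)⁻¹ * (2 * ENNReal.ofReal T * S ^ q)) ^ (1 / q) :=
        ENNReal.rpow_le_rpow (mul_le_mul' le_rfl (h1.trans (mul_le_mul' h2 le_rfl)))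
          (by positivity)
    _ = (2 * S ^ q) ^ (1 / q) := by
        congr 1
        calc (ENNReal.ofReal T)⁻¹ * (2 * ENNReal.ofReal T * S ^ q)
            = ((ENNReal.ofReal T)⁻¹ * ENNReal.ofReal T) * (2 * S ^ q) := by ring
          _ = _ := by rw [ENNReal.inv_mul_cancel hT0 ENNReal.ofReal_ne_top, one_mul]
    _ = 2 ^ (1 / q) * S := by
        rw [ENNReal.mul_rpow_of_nonneg _ _ (by positivity), ← ENNReal.rpow_mul,
          mul_one_div_cancel hq0.ne', ENNReal.rpow_one]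
    _ ≤ 2 * S := by
        refine mul_le_mul' ?_ le_rfl
        calc (2 : ℝ≥0∞) ^ (1 / q) ≤ 2 ^ (1 : ℝ) :=
              ENNReal.rpow_le_rpow_of_exponent_le (by norm_num) (by
                rw [div_le_one hq0]; linarith)
          _ = 2 := ENNReal.rpow_one _

lemma add_sq_le (a b : ℝ≥0∞) : (a + b) ^ 2 ≤ 2 * (a ^ 2 + b ^ 2) := by
  have h := ENNReal.rpow_add_le_mul_rpow_add_rpow a b (p := 2) (by norm_num)
  have e : ∀ y : ℝ≥0∞, y ^ (2 : ℝ) = y ^ 2 := fun y => by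
    rw [← ENNReal.rpow_natCast]; norm_num
  rw [e, e, e] at h
  norm_num at h
  exact h

/-- the majorant is bounded in `L²` -/
theorem Sm_int {G : En (m + 1) → ℂ} (hG : MemLp G 2) {q : ℝ} (hq : 2 ≤ q) :
    ∫⁻ x, (2 * Sm q G x) ^ 2 ≤ (8 * (cl m + 4)) * ENNReal.ofReal (q ^ 2) *
      ∫⁻ ξ, ‖G ξ‖ₑ ^ 2 := by
  have hsum : ∑' k : ℤ, ∫⁻ ξ in shell (m + 1) ((2 : ℝ) ^ k) (2 * 2 ^ k), ‖G ξ‖ₑ ^ 2 ≤
      ∫⁻ ξ, ‖G ξ‖ₑ ^ 2 := by
    have hd : Pairwise (Function.onFun Disjoint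
        fun k : ℤ => shell (m + 1) ((2 : ℝ) ^ k) (2 * 2 ^ k)) := by
      have key : ∀ i k : ℤ, i < k → Disjoint (shell (m + 1) ((2 : ℝ) ^ i) (2 * 2 ^ i))
          (shell (m + 1) ((2 : ℝ) ^ k) (2 * 2 ^ k)) := by
        intro i k hik
        rw [Set.disjoint_left]
        rintro ξ h2 h3
        have h4 : (2 : ℝ) ^ (i + 1) ≤ 2 ^ k := zpow_le_zpow_right₀ (by norm_num) hik
        rw [zpow_add_one₀ (by norm_num)] at h4
        have := h2.2
        have := h3.1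
        linarith
      intro i k hik
      rcases lt_or_gt_of_ne hik with h | h
      · exact key i k h
      · exact (key k i h).symm
    rw [← lintegral_iUnion (fun k => shell_meas _ _ _) hd]
    exact setLIntegral_le_lintegral _ _
  have hV : ∫⁻ x, ∑' k : ℤ, Vb q G (2 ^ k) x ^ 2 ≤ ENNReal.ofReal (4 * q ^ 2) *
      ∫⁻ ξ, ‖G ξ‖ₑ ^ 2 := by
    rw [lintegral_tsum fun k => ((Vb_meas hG q _).pow_const 2).aemeasurable]
    refine (ENNReal.tsum_le_tsum fun k => Vb_int hG hq (by positivity)).trans ?_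
    rw [ENNReal.tsum_mul_left]
    exact mul_le_mul' le_rfl hsum
  have hpt : ∀ x, (2 * Sm q G x) ^ 2 ≤ 8 * (⨆ k : ℤ, ‖ps G (2 ^ k) x‖ₑ) ^ 2 +
      8 * ∑' k : ℤ, Vb q G (2 ^ k) x ^ 2 := by
    intro x
    unfold Sm
    rw [mul_pow]
    refine (mul_le_mul' le_rfl (add_sq_le _ _)).trans (le_of_eq ?_)
    have e : ((∑' k : ℤ, Vb q G (2 ^ k) x ^ 2) ^ (1 / 2 : ℝ)) ^ 2 =
        ∑' k : ℤ, Vb q G (2 ^ k) x ^ 2 := by
      rw [← ENNReal.rpow_natCast, ← ENNReal.rpow_mul]; norm_num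
    rw [e]
    ring
  refine (lintegral_mono hpt).trans ?_
  have hm1 : Measurable fun x => (⨆ k : ℤ, ‖ps G (2 ^ k) x‖ₑ) ^ 2 :=
    (Measurable.iSup fun k => (ps_cont_x hG _).measurable.enorm).pow_const 2
  rw [lintegral_add_left (hm1.const_mul _), lintegral_const_mul _ hm1,
    lintegral_const_mul _ (Measurable.tsum fun k => (Vb_meas hG q _).pow_const 2)]
  have h1q : (1 : ℝ≥0∞) ≤ ENNReal.ofReal (q ^ 2) := by
    rw [← ENNReal.ofReal_one]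
    exact ENNReal.ofReal_le_ofReal (by nlinarith)
  have e4 : ENNReal.ofReal (4 * q ^ 2) = 4 * ENNReal.ofReal (q ^ 2) := by
    rw [ENNReal.ofReal_mul (by norm_num)]; simp
  calc 8 * (∫⁻ x, (⨆ k : ℤ, ‖ps G (2 ^ k) x‖ₑ) ^ 2) +
        8 * (∫⁻ x, ∑' k : ℤ, Vb q G (2 ^ k) x ^ 2)
      ≤ 8 * (cl m * ∫⁻ ξ, ‖G ξ‖ₑ ^ 2) + 8 * (ENNReal.ofReal (4 * q ^ 2) * ∫⁻ ξ, ‖G ξ‖ₑ ^ 2) :=
        add_le_add (mul_le_mul' le_rfl (lac hG)) (mul_le_mul' le_rfl hV)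
    _ ≤ 8 * (cl m * ENNReal.ofReal (q ^ 2) * ∫⁻ ξ, ‖G ξ‖ₑ ^ 2) +
          8 * (4 * ENNReal.ofReal (q ^ 2) * ∫⁻ ξ, ‖G ξ‖ₑ ^ 2) := by
        rw [e4]
        refine add_le_add (mul_le_mul' le_rfl (mul_le_mul' ?_ le_rfl)) le_rfl
        calc cl m = cl m * 1 := (mul_one _).symm
          _ ≤ _ := mul_le_mul' le_rfl h1q
    _ = _ := by ring

end Pool.Agent.W2helper16.SM
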