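import Pool.Agent.W2helper16.SM.HL
import Pool.Agent.Helper93.Sph.W1

/-! Gaussian means and the dyadic maximal function. -/

set_option autoImplicit false

open MeasureTheory Real Set Filter Topology Metric
open scoped ENNReal NNReal RealInnerProductSpace

namespace Pool.Agent.W2helper16.SM

open Pool.Agent.Helper93.Sph (ek Fi ek_norm ek_cont ek_int Fi_cont gint gauss_ft)

variable {n : ℕ}

/-- the coefficients of the decomposition -/
noncomputable def cc (i : ℕ) : ℝ := 3 * rexp (-(π * 4 ^ i / 4))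

lemma cc_pos (i : ℕ) : 0 < cc i := by unfold cc; positivity

lemma gauss_le_sum {t : ℝ} (ht : 0 ≤ t) : ∃ i : ℕ, t < 2 ^ i ∧ rexp (-(π * t ^ 2)) ≤ cc i := by
  by_cases h1 : t < 1
  · refine ⟨0, by simpa using h1, ?_⟩
    rw [cc]
    have h2 : rexp (-(π * t ^ 2)) ≤ 1 := by
      rw [Real.exp_le_one_iff]; have := pi_pos; have := sq_nonneg t; nlinarith
    refine h2.trans ?_
    have h3 : -(π * 4 ^ 0 / 4) + 1 ≤ rexp (-(π * 4 ^ 0 / 4)) := add_one_le_exp _
    have h4 : rexp (-(1 : ℝ)) ≤ rexp (-(π * 4 ^ 0 / 4)) := by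
      rw [Real.exp_le_exp]; have := Real.pi_le_four; norm_num; linarith
    have h5 : (1 : ℝ) / 3 ≤ rexp (-(1 : ℝ)) := by
      rw [Real.exp_neg, one_div]
      have := Real.exp_one_lt_d9
      exact inv_anti₀ (Real.exp_pos 1) (by linarith)
    linarith
  · push Not at h1
    have hex : ∃ i : ℕ, t < 2 ^ i := pow_unbounded_of_one_lt t (by norm_num)
    classical
    refine ⟨Nat.find hex, Nat.find_spec hex, ?_⟩
    have h0 : Nat.find hex ≠ 0 := by
      intro h
      have := Nat.find_spec hex
      rw [h] at this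
      simp at this
      linarith
    have h2 := Nat.find_min hex (m := Nat.find hex - 1) (by omega)
    push Not at h2
    obtain ⟨j, hj⟩ : ∃ j, Nat.find hex = j + 1 := ⟨Nat.find hex - 1, by omega⟩
    rw [hj] at h2 ⊢
    simp only [Nat.add_sub_cancel] at h2
    rw [cc]
    have h3 : (4 : ℝ) ^ (j + 1) / 4 ≤ t ^ 2 := by
      have : ((2 : ℝ) ^ j) ^ 2 ≤ t ^ 2 := pow_le_pow_left₀ (by positivity) h2 2
      have e : ((2 : ℝ) ^ j) ^ 2 = 4 ^ (j + 1) / 4 := by
        rw [← pow_mul, mul_comm j 2, pow_mul, pow_succ (4 : ℝ) j]; norm_num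
      rwa [e] at this
    have h4 : rexp (-(π * t ^ 2)) ≤ rexp (-(π * 4 ^ (j + 1) / 4)) := by
      rw [Real.exp_le_exp]
      have := pi_pos
      have h5 : π * (4 ^ (j + 1) / 4) ≤ π * t ^ 2 := mul_le_mul_of_nonneg_left h3 this.le
      have h6 : π * 4 ^ (j + 1) / 4 = π * (4 ^ (j + 1) / 4) := by ring
      linarith
    have := Real.exp_pos (-(π * 4 ^ (j + 1) / 4))
    linarith

/-- the constant of the comparison -/
noncomputable def cg (n : ℕ) : ℝ≥0∞ :=
  ∑' i : ℕ, ENNReal.ofReal (cc i * (2 ^ i) ^ n) * volume (ball (0 : En n) 1)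

lemma cg_lt (n : ℕ) : cg n < ⊤ := by
  unfold cg
  rw [ENNReal.tsum_mul_right]
  refine ENNReal.mul_lt_top ?_ measure_ball_lt_top
  have hs : Summable fun i : ℕ => cc i * (2 ^ i) ^ n := by
    have hb : ∀ i : ℕ, cc i * (2 ^ i) ^ n ≤ 3 * ((n + 1).factorial * (4 / π) ^ (n + 1)) * (1 / 2) ^ i := by
      intro i
      set u : ℝ := π * 4 ^ i / 4 with hu
      have hu0 : 0 < u := by positivity
      have h1 : u ^ (n + 1) / (n + 1).factorial ≤ rexp u := Real.pow_div_factorial_le_exp u hu0.le _
      have h2 : rexp (-u) ≤ (n + 1).factorial / u ^ (n + 1) := by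
        rw [Real.exp_neg, inv_le_comm₀ (Real.exp_pos u) (by positivity), inv_div]
        exact h1
      have h3 : (1 : ℝ) / u = (4 / π) * (1 / 4) ^ i := by
        rw [hu, one_div_pow]; field_simp
      calc cc i * (2 ^ i) ^ n = 3 * rexp (-u) * (2 ^ i) ^ n := rfl
        _ ≤ 3 * ((n + 1).factorial / u ^ (n + 1)) * (2 ^ i) ^ n := by gcongr
        _ = 3 * ((n + 1).factorial * (1 / u) ^ (n + 1)) * (2 ^ i) ^ n := by
            rw [one_div_pow]; ring
        _ = 3 * ((n + 1).factorial * (4 / π) ^ (n + 1)) * (((1 / 4) ^ i) ^ (n + 1) * (2 ^ i) ^ n) := by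
            rw [h3, mul_pow]; ring
        _ ≤ 3 * ((n + 1).factorial * (4 / π) ^ (n + 1)) * (1 / 2) ^ i := by
            have h4 : (((1 : ℝ) / 4) ^ i) ^ (n + 1) * (2 ^ i) ^ n ≤ (1 / 2) ^ i := by
              have e1 : (((1 : ℝ) / 4) ^ i) ^ (n + 1) * (2 ^ i) ^ n =
                  (1 / 4) ^ i * ((1 / 2) ^ i) ^ n := by
                rw [pow_succ, mul_right_comm, ← mul_pow, ← mul_pow]
                norm_num
                ring
              rw [e1]
              have e2 : ((1 : ℝ) / 4) ^ i ≤ (1 / 2) ^ i :=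
                pow_le_pow_left₀ (by norm_num) (by norm_num) i
              have e3 : (((1 : ℝ) / 2) ^ i) ^ n ≤ 1 :=
                pow_le_one₀ (by positivity) (pow_le_one₀ (by norm_num) (by norm_num))
              have e4 : (0 : ℝ) ≤ (1 / 4) ^ i := by positivity
              nlinarith
            exact mul_le_mul_of_nonneg_left h4 (by positivity)
    exact Summable.of_nonneg_of_le (fun i => by have := cc_pos i; positivity) hb
      ((summable_geometric_of_lt_one (by norm_num) (by norm_num)).mul_left _)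
  rw [← ENNReal.ofReal_tsum_of_nonneg (fun i => by have := cc_pos i; positivity) hs]
  exact ENNReal.ofReal_lt_top

/-- the Gaussian kernel -/
noncomputable def gk (n : ℕ) (s : ℝ) (y : En n) : ℝ := (s ^ n)⁻¹ * rexp (-(π / s ^ 2) * ‖y‖ ^ 2)

/-- Gaussian averages are bounded by the maximal function -/
lemma gk_le_HM {w : En n → ℝ≥0∞} (hw : Measurable w) (k : ℤ) (x : En n) :
    ∫⁻ y, ENNReal.ofReal (gk n (2 ^ k) (x - y)) * w y ≤ cg n * HM w x := by
  set s : ℝ := 2 ^ k with hs
  have hs0 : 0 < s := by positivity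
  have h1 : ∀ y, ENNReal.ofReal (gk n s (x - y)) * w y ≤
      ∑' i : ℕ, ENNReal.ofReal (cc i * (s ^ n)⁻¹) * (ball x (2 ^ i * s)).indicator w y := by
    intro y
    obtain ⟨i, hi1, hi2⟩ := gauss_le_sum (t := ‖x - y‖ / s) (by positivity)
    have hy : y ∈ ball x (2 ^ i * s) := by
      rw [mem_ball, dist_comm, dist_eq_norm]
      rwa [div_lt_iff₀ hs0] at hi1
    refine le_trans ?_ (ENNReal.le_tsum i)
    rw [indicator_of_mem hy]
    refine mul_le_mul' (ENNReal.ofReal_le_ofReal ?_) le_rfl
    rw [gk, mul_comm (cc i)]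
    refine mul_le_mul_of_nonneg_left ?_ (by positivity)
    refine le_trans (le_of_eq ?_) hi2
    congr 1
    rw [div_pow]; ring
  calc ∫⁻ y, ENNReal.ofReal (gk n s (x - y)) * w y
      ≤ ∫⁻ y, ∑' i : ℕ, ENNReal.ofReal (cc i * (s ^ n)⁻¹) * (ball x (2 ^ i * s)).indicator w y :=
        lintegral_mono h1
    _ = ∑' i : ℕ, ENNReal.ofReal (cc i * (s ^ n)⁻¹) * ∫⁻ y in ball x (2 ^ i * s), w y := by
        rw [lintegral_tsum fun i => ((hw.indicator measurableSet_ball).const_mul _).aemeasurable]
        refine tsum_congr fun i => ?_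
        rw [lintegral_const_mul _ (hw.indicator measurableSet_ball),
          lintegral_indicator measurableSet_ball]
    _ ≤ ∑' i : ℕ, ENNReal.ofReal (cc i * (2 ^ i) ^ n) * volume (ball (0 : En n) 1) * HM w x := by
        refine ENNReal.tsum_le_tsum fun i => ?_
        have hr : 0 < 2 ^ i * s := by positivity
        have h2 : ∫⁻ y in ball x (2 ^ i * s), w y ≤ volume (ball x (2 ^ i * s)) * HM w x := by
          have h3 : Av w (2 ^ i * s) x ≤ HM w x := by
            have e : (2 : ℝ) ^ i * s = 2 ^ ((i : ℤ) + k) := by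
              rw [zpow_add₀ (by norm_num), zpow_natCast]
            rw [e]
            exact le_iSup (fun k : ℤ => Av w (2 ^ k) x) _
          calc ∫⁻ y in ball x (2 ^ i * s), w y
              = volume (ball x (2 ^ i * s)) * Av w (2 ^ i * s) x := by
                rw [Av, ← mul_assoc, ENNReal.mul_inv_cancel (vol_ne_zero x hr) (vol_ne_top x _),
                  one_mul]
            _ ≤ _ := mul_le_mul' le_rfl h3
        calc ENNReal.ofReal (cc i * (s ^ n)⁻¹) * ∫⁻ y in ball x (2 ^ i * s), w y
            ≤ ENNReal.ofReal (cc i * (s ^ n)⁻¹) * (volume (ball x (2 ^ i * s)) * HM w x) :=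
              mul_le_mul' le_rfl h2
          _ = ENNReal.ofReal (cc i * (s ^ n)⁻¹) * ENNReal.ofReal ((2 ^ i * s) ^ n) *
                volume (ball (0 : En n) 1) * HM w x := by
              rw [Measure.addHaar_ball_of_pos volume x hr, finrank_euclideanSpace_fin]
              ring
          _ = _ := by
              rw [← ENNReal.ofReal_mul (by have := cc_pos i; positivity)]
              congr 3
              rw [mul_pow]
              field_simp
    _ = cg n * HM w x := by rw [ENNReal.tsum_mul_right, cg]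

/-- Gaussian means of the inverse Fourier integral -/
noncomputable def gm (F : En n → ℂ) (s : ℝ) (x : En n) : ℂ :=
  Fi (fun ξ => ((rexp (-(π * s ^ 2) * ‖ξ‖ ^ 2) : ℝ) : ℂ) * F ξ) x

lemma gm_eq {F : En n → ℂ} (hF : Integrable F) {s : ℝ} (hs : 0 < s) (x : En n) :
    gm F s x = ∫ y, ((gk n s (x - y) : ℝ) : ℂ) * Fi F y := by
  have hb : 0 < π / s ^ 2 := by positivity
  have hgi : Integrable (fun y : En n => gk n s (x - y)) := by
    have h1 : Integrable (fun y : En n => (s ^ n)⁻¹ * rexp (-(π / s ^ 2) * ‖y‖ ^ 2)) :=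
      (gint hb).const_mul _
    exact h1.comp_sub_left x
  have hprod : Integrable (fun z : En n × En n => ((gk n s (x - z.1) : ℝ) : ℂ) *
      (ek z.1 z.2 * F z.2)) (volume.prod volume) := by
    have h1 : Integrable (fun z : En n × En n => ((gk n s (x - z.1) : ℝ) : ℂ) * F z.2)
        (volume.prod volume) := hgi.ofReal.mul_prod hF
    have h2 := h1.bdd_mul (c := 1) (f := fun z : En n × En n => ek z.1 z.2)
      ek_cont.aestronglyMeasurable (Eventually.of_forall fun z => (ek_norm _ _).le)
    refine h2.congr (Eventually.of_forall fun z => ?_)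
    simp only
    ring
  calc gm F s x = ∫ ξ, ∫ y, ((gk n s (x - y) : ℝ) : ℂ) * (ek y ξ * F ξ) := by
        rw [gm, Fi]
        refine integral_congr_ae (Eventually.of_forall fun ξ => ?_)
        simp only
        have e1 : ∫ y, ((gk n s (x - y) : ℝ) : ℂ) * (ek y ξ * F ξ) =
            (∫ y, ((gk n s (x - y) : ℝ) : ℂ) * ek y ξ) * F ξ := by
          rw [← integral_mul_const]
          refine integral_congr_ae (Eventually.of_forall fun y => ?_)
          simp only; ring
        have e2 : ∫ y, ((gk n s (x - y) : ℝ) : ℂ) * ek y ξ =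
            ek x ξ * ((rexp (-(π * s ^ 2) * ‖ξ‖ ^ 2) : ℝ) : ℂ) := by
          rw [← integral_sub_left_eq_self (fun y => ((gk n s (x - y) : ℝ) : ℂ) * ek y ξ) volume x]
          have e3 : ∀ z : En n, ((gk n s (x - (x - z)) : ℝ) : ℂ) * ek (x - z) ξ =
              (ek x ξ * (((s ^ n)⁻¹ : ℝ) : ℂ)) * (Complex.exp (2 * π * Complex.I *
                ((⟪-ξ, z⟫ : ℝ) : ℂ)) * ((rexp (-(π / s ^ 2) * ‖z‖ ^ 2) : ℝ) : ℂ)) := by
            intro z
            have e4 : ek (x - z) ξ = ek x ξ * Complex.exp (2 * π * Complex.I *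
                ((⟪-ξ, z⟫ : ℝ) : ℂ)) := by
              rw [ek, ek, ← Complex.exp_add, inner_sub_left, inner_neg_left, real_inner_comm z ξ]
              congr 1
              push_cast
              ring
            rw [e4, sub_sub_cancel, gk]
            push_cast
            ring
          simp_rw [e3]
          rw [integral_const_mul, gauss_ft hb (-ξ), norm_neg]
          have e5 : (π / (π / s ^ 2)) ^ ((n : ℝ) / 2) = s ^ n := by
            have : π / (π / s ^ 2) = s ^ 2 := by field_simp
            rw [this, ← Real.rpow_natCast s 2, ← Real.rpow_mul hs.le]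
            push_cast
            rw [mul_div_cancel₀ _ (by norm_num : (2 : ℝ) ≠ 0), Real.rpow_natCast]
          have e6 : π ^ 2 / (π / s ^ 2) = π * s ^ 2 := by field_simp
          rw [e5, e6]
          push_cast
          have : (s : ℂ) ^ n ≠ 0 := pow_ne_zero _ (by exact_mod_cast hs.ne')
          field_simp
        rw [e1, e2]
        ring
    _ = ∫ y, ∫ ξ, ((gk n s (x - y) : ℝ) : ℂ) * (ek y ξ * F ξ) :=
        (integral_integral_swap hprod).symm
    _ = _ := by
        refine integral_congr_ae (Eventually.of_forall fun y => ?_)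
        simp only
        rw [integral_const_mul, Fi]

/-- Gaussian means are bounded by the maximal function -/
lemma gm_le {F : En n → ℂ} (hF : Integrable F) (k : ℤ) (x : En n) :
    ‖gm F (2 ^ k) x‖ₑ ≤ cg n * HM (fun y => ‖Fi F y‖ₑ) x := by
  rw [gm_eq hF (by positivity) x]
  refine (enorm_integral_le_lintegral_enorm _).trans ?_
  refine le_trans (le_of_eq ?_) (gk_le_HM (Fi_cont hF).measurable.enorm k x)
  refine lintegral_congr fun y => ?_
  rw [enorm_mul]
  congr 1
  rw [← ofReal_norm, Complex.norm_real, Real.norm_of_nonneg]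
  unfold gk; positivity

end Pool.Agent.W2helper16.SM
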