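import Mathlib

/-!
The maximal theorem of Hardy and Littlewood on Euclidean space, dyadic radii, strong type (after
the file `Pool/Agent/N892/BW/HLM.lean` of the start files, which treats the plane).
-/

set_option autoImplicit false

open MeasureTheory Set Metric
open scoped ENNReal

namespace Pool.Agent.W2helper16.SM

/-- Euclidean space -/
abbrev En (n : ℕ) := EuclideanSpace ℝ (Fin n)

variable {n : ℕ}

/-- the constant -/
noncomputable def c5 (n : ℕ) : ℝ≥0∞ := ENNReal.ofReal (5 ^ n)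

/-- The radii. -/
noncomputable def Rr (R₀ : ℝ) (m : ℕ) : ℝ := R₀ / 2 ^ m

/-- averages over discs -/
noncomputable def Av (g : En n → ℝ≥0∞) (r : ℝ) (x : En n) : ℝ≥0∞ :=
  (volume (ball x r))⁻¹ * ∫⁻ y in ball x r, g y

/-- The discrete maximal function. -/
noncomputable def Mx (R₀ : ℝ) (g : En n → ℝ≥0∞) (x : En n) : ℝ≥0∞ := ⨆ m : ℕ, Av g (Rr R₀ m) x

variable {R₀ : ℝ}

lemma Rr_pos (h : 0 < R₀) (m : ℕ) : 0 < Rr R₀ m := by
  unfold Rr
  positivity

lemma Rr_le (h : 0 < R₀) (m : ℕ) : Rr R₀ m ≤ R₀ := by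
  unfold Rr
  exact div_le_self h.le (one_le_pow₀ (by norm_num))

lemma vol_ball (x : En n) (r : ℝ) : volume (ball x r) = volume (ball (0 : En n) r) :=
  Measure.addHaar_ball_center volume x r

lemma vol_ne_top (x : En n) (r : ℝ) : volume (ball x r) ≠ ⊤ := measure_ball_lt_top.ne

lemma vol_ne_zero (x : En n) {r : ℝ} (hr : 0 < r) : volume (ball x r) ≠ 0 :=
  (measure_ball_pos volume x hr).ne'

lemma vol5 (x : En n) {r : ℝ} (_hr : 0 < r) :
    volume (closedBall x (5 * r)) = c5 n * volume (ball x r) := by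
  rw [Measure.addHaar_closedBall volume x (by positivity), Measure.addHaar_ball_of_pos volume x _hr,
    finrank_euclideanSpace_fin, c5, mul_pow, ENNReal.ofReal_mul (by positivity), mul_assoc]

lemma meas_avg {g : En n → ℝ≥0∞} (hg : Measurable g) (r : ℝ) :
    Measurable fun x : En n => ∫⁻ y in ball x r, g y := by
  have e : (fun x : En n => ∫⁻ y in ball x r, g y)
      = fun x : En n => ∫⁻ y, ({p : En n × En n | dist p.2 p.1 < r}.indicator (fun p => g p.2)) (x, y) := by
    funext x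
    rw [← lintegral_indicator measurableSet_ball]
    rfl
  rw [e]
  apply Measurable.lintegral_prod_right' (f := {p : En n × En n | dist p.2 p.1 < r}.indicator
    (fun p => g p.2))
  exact (hg.comp measurable_snd).indicator
    (measurableSet_lt (measurable_snd.dist measurable_fst) measurable_const)

lemma meas_Av {g : En n → ℝ≥0∞} (hg : Measurable g) (r : ℝ) : Measurable (Av g r) := by
  unfold Av
  have e : (fun x : En n => (volume (ball x r))⁻¹ * ∫⁻ y in ball x r, g y) =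
      fun x : En n => (volume (ball (0 : En n) r))⁻¹ * ∫⁻ y in ball x r, g y := by
    funext x
    rw [vol_ball]
  rw [e]
  exact (meas_avg hg r).const_mul _

lemma meas_Mx {g : En n → ℝ≥0∞} (hg : Measurable g) : Measurable (Mx R₀ g) := by
  unfold Mx
  exact Measurable.iSup fun m => meas_Av hg _

/-- The weak type inequality. -/
theorem weak (h : 0 < R₀) {g : En n → ℝ≥0∞} {l : ℝ≥0∞} :
    l * volume {x | l < Mx R₀ g x} ≤ c5 n * ∫⁻ y, g y := by
  classical
  obtain ⟨S, hS⟩ : ∃ S : Set (En n), S = {x | l < Mx R₀ g x} := ⟨_, rfl⟩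
  have hch : ∀ x : En n, ∃ m : ℕ, x ∈ S →
      l * volume (ball x (Rr R₀ m)) ≤ ∫⁻ y in ball x (Rr R₀ m), g y := by
    intro x
    by_cases hx : x ∈ S
    · rw [hS] at hx
      obtain ⟨m, hm⟩ := lt_iSup_iff.1 (show l < Mx R₀ g x from hx)
      refine ⟨m, fun _ => ?_⟩
      have hR := Rr_pos h m
      unfold Av at hm
      have h1 : l * volume (ball x (Rr R₀ m)) ≤ ((volume (ball x (Rr R₀ m)))⁻¹ *
          ∫⁻ y in ball x (Rr R₀ m), g y) * volume (ball x (Rr R₀ m)) :=
        mul_le_mul_left hm.le _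
      refine h1.trans (le_of_eq ?_)
      rw [mul_comm (volume (ball x (Rr R₀ m)))⁻¹, mul_assoc,
        ENNReal.inv_mul_cancel (vol_ne_zero x hR) (vol_ne_top x _), mul_one]
    · exact ⟨0, fun h => absurd h hx⟩
  choose m hm using hch
  rw [← hS]
  obtain ⟨u, huS, hud, huc⟩ := Vitali.exists_disjoint_subfamily_covering_enlargement_closedBall
    S (fun x : En n => x) (fun x => Rr R₀ (m x)) R₀ (fun x _ => Rr_le h _) 5 (by norm_num)
  have hRp : ∀ x, 0 < Rr R₀ (m x) := fun x => Rr_pos h _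
  have hcount : u.Countable := hud.countable_of_nonempty_interior fun x _ => by
    rw [interior_closedBall _ (hRp x).ne']
    exact ⟨x, mem_ball_self (hRp x)⟩
  have hcov : S ⊆ ⋃ b ∈ u, closedBall b (5 * Rr R₀ (m b)) := by
    intro x hx
    obtain ⟨b, hb, hsub⟩ := huc x hx
    exact mem_biUnion hb (hsub (mem_closedBall_self (hRp x).le))
  have h1 : volume S ≤ ∑' b : u, volume (closedBall (b : En n) (5 * Rr R₀ (m b))) :=
    (measure_mono hcov).trans (measure_biUnion_le volume hcount _)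
  have h2 : ∀ b : u, l * volume (closedBall (b : En n) (5 * Rr R₀ (m b)))
      ≤ c5 n * ∫⁻ y in closedBall (b : En n) (Rr R₀ (m b)), g y := by
    intro b
    have hb := hm b (huS b.2)
    rw [vol5 _ (hRp b)]
    calc l * (c5 n * volume (ball (b : En n) (Rr R₀ (m b))))
        = c5 n * (l * volume (ball (b : En n) (Rr R₀ (m b)))) := by ring
      _ ≤ c5 n * ∫⁻ y in ball (b : En n) (Rr R₀ (m b)), g y := by gcongr
      _ ≤ _ := by
          gcongr
          exact ball_subset_closedBall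
  calc l * volume S ≤ l * ∑' b : u, volume (closedBall (b : En n) (5 * Rr R₀ (m b))) := by gcongr
    _ = ∑' b : u, l * volume (closedBall (b : En n) (5 * Rr R₀ (m b))) := ENNReal.tsum_mul_left.symm
    _ ≤ ∑' b : u, c5 n * ∫⁻ y in closedBall (b : En n) (Rr R₀ (m b)), g y :=
        ENNReal.tsum_le_tsum h2
    _ = c5 n * ∑' b : u, ∫⁻ y in closedBall (b : En n) (Rr R₀ (m b)), g y := ENNReal.tsum_mul_left
    _ = c5 n * ∫⁻ y in ⋃ b ∈ u, closedBall b (Rr R₀ (m b)), g y := by
        rw [lintegral_biUnion hcount (fun b _ => measurableSet_closedBall) hud]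
    _ ≤ c5 n * ∫⁻ y, g y := by
        gcongr
        exact Measure.restrict_le_self

lemma Av_const (x : En n) {r : ℝ} (hr : 0 < r) (B : ℝ≥0∞) :
    (volume (ball x r))⁻¹ * ∫⁻ _ in ball x r, B = B := by
  rw [setLIntegral_const, mul_comm B, ← mul_assoc,
    ENNReal.inv_mul_cancel (vol_ne_zero x hr) (vol_ne_top x _), one_mul]

/-- The maximal function of a bounded function. -/
lemma Mx_le (h : 0 < R₀) {g : En n → ℝ≥0∞} {B : ℝ≥0∞} (hB : ∀ x, g x ≤ B) (x : En n) :
    Mx R₀ g x ≤ B := by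
  refine iSup_le fun m => ?_
  have hR := Rr_pos h m
  calc Av g (Rr R₀ m) x ≤ (volume (ball x (Rr R₀ m)))⁻¹ * ∫⁻ _ in ball x (Rr R₀ m), B :=
        mul_le_mul_right (lintegral_mono fun y => hB y) _
    _ = B := Av_const x hR B

/-- Sub-additivity. -/
lemma Mx_add (h : 0 < R₀) {g g1 : En n → ℝ≥0∞} {B : ℝ≥0∞} (hg : ∀ x, g x ≤ g1 x + B) (x : En n) :
    Mx R₀ g x ≤ Mx R₀ g1 x + B := by
  refine iSup_le fun m => ?_
  have hR := Rr_pos h m
  have h1 : (∫⁻ y in ball x (Rr R₀ m), g y)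
      ≤ (∫⁻ y in ball x (Rr R₀ m), g1 y) + ∫⁻ _ in ball x (Rr R₀ m), B := by
    refine (lintegral_mono fun y => hg y).trans ?_
    rw [lintegral_add_right _ measurable_const]
  unfold Av
  refine (mul_le_mul_right h1 _).trans ?_
  rw [mul_add, Av_const x hR B]
  exact add_le_add (le_iSup (fun m : ℕ => Av g1 (Rr R₀ m) x) m) le_rfl

/-- The strong type inequality. -/
theorem strong {p : ℝ} (hp : 1 < p) (h : 0 < R₀) {g : En n → ℝ≥0∞} (hg : Measurable g) {B : ℝ≥0∞}
    (hBt : B ≠ ⊤) (hB : ∀ x, g x ≤ B) :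
    ∫⁻ x, Mx R₀ g x ^ p ≤ ENNReal.ofReal p * ((2 * c5 n) * (ENNReal.ofReal (2 ^ (p - 1)) *
      ((ENNReal.ofReal (p - 1))⁻¹ * ∫⁻ x, g x ^ p))) := by
  have hp0 : 0 < p := by linarith
  have hp1 : 0 < p - 1 := by linarith
  have hMt : ∀ x, Mx R₀ g x ≠ ⊤ := fun x => ((Mx_le h hB x).trans_lt hBt.lt_top).ne
  have hgt : ∀ x, g x ≠ ⊤ := fun x => ((hB x).trans_lt hBt.lt_top).ne
  obtain ⟨f, hf⟩ : ∃ f : En n → ℝ, f = fun x => (Mx R₀ g x).toReal := ⟨_, rfl⟩
  obtain ⟨G, hG⟩ : ∃ G : En n → ℝ, G = fun x => 2 * (g x).toReal := ⟨_, rfl⟩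
  have hfm : Measurable f := by rw [hf]; exact (meas_Mx hg).ennreal_toReal
  have hGm : Measurable G := by rw [hG]; exact hg.ennreal_toReal.const_mul 2
  have e1 : ∫⁻ x, Mx R₀ g x ^ p = ∫⁻ x, ENNReal.ofReal (f x ^ p) := by
    refine lintegral_congr fun x => ?_
    rw [← ENNReal.ofReal_rpow_of_nonneg (by rw [hf]; exact ENNReal.toReal_nonneg) hp0.le, hf,
      ENNReal.ofReal_toReal (hMt x)]
  rw [e1, lintegral_rpow_eq_lintegral_meas_lt_mul volume
    (Filter.Eventually.of_forall fun x => by rw [hf]; exact ENNReal.toReal_nonneg)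
    hfm.aemeasurable hp0]
  refine mul_le_mul_right ?_ _
  obtain ⟨ν, hν⟩ : ∃ ν : Measure (En n), ν = volume.withDensity g := ⟨_, rfl⟩
  -- the level sets
  have key : ∀ t ∈ Ioi (0 : ℝ), volume {a : En n | t < f a} * ENNReal.ofReal (t ^ (p - 1))
      ≤ (2 * c5 n) * (ν {a : En n | t < G a} * ENNReal.ofReal (t ^ (p - 1 - 1))) := by
    intro t ht
    have ht0 : (0 : ℝ) < t := ht
    obtain ⟨A, hA⟩ : ∃ A : Set (En n), A = {a : En n | t < G a} := ⟨_, rfl⟩
    have hAm : MeasurableSet A := by rw [hA]; exact measurableSet_lt measurable_const hGm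
    have hsub : {a : En n | t < f a} ⊆ {x | ENNReal.ofReal (t / 2) < Mx R₀ (A.indicator g) x} := by
      intro x hx
      have hx' : t < f x := hx
      have h1 : ∀ y, g y ≤ A.indicator g y + ENNReal.ofReal (t / 2) := by
        intro y
        by_cases hy : y ∈ A
        · rw [indicator_of_mem hy]
          exact le_self_add
        · rw [indicator_of_notMem hy, zero_add]
          rw [hA, hG] at hy
          have hy' : ¬ t < 2 * (g y).toReal := hy
          rw [← ENNReal.ofReal_toReal (hgt y)]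
          apply ENNReal.ofReal_le_ofReal
          linarith
      have h2 := Mx_add h h1 x
      have h3 : ENNReal.ofReal t < Mx R₀ g x := by
        rw [hf] at hx'
        exact (ENNReal.ofReal_lt_iff_lt_toReal ht0.le (hMt x)).2 hx'
      show ENNReal.ofReal (t / 2) < Mx R₀ (A.indicator g) x
      by_contra h5
      push Not at h5
      have h6 : Mx R₀ g x ≤ ENNReal.ofReal t := by
        refine h2.trans ((add_le_add h5 le_rfl).trans (le_of_eq ?_))
        rw [← ENNReal.ofReal_add (by positivity) (by positivity)]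
        congr 1
        ring
      exact absurd h3 (not_lt.2 h6)
    have hw := weak h (g := A.indicator g) (l := ENNReal.ofReal (t / 2))
    rw [lintegral_indicator hAm] at hw
    have hν' : ν A = ∫⁻ y in A, g y := by rw [hν, withDensity_apply _ hAm]
    rw [← hν'] at hw
    have h7 : ENNReal.ofReal (t / 2) * volume {a : En n | t < f a} ≤ c5 n * ν A :=
      (mul_le_mul_right (measure_mono hsub) _).trans hw
    have h8 : ENNReal.ofReal (t ^ (p - 1))
        = 2 * (ENNReal.ofReal (t / 2) * ENNReal.ofReal (t ^ (p - 1 - 1))) := by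
      have : (2 : ℝ≥0∞) = ENNReal.ofReal 2 := by simp
      rw [this, ← ENNReal.ofReal_mul (by positivity), ← ENNReal.ofReal_mul (by norm_num)]
      congr 1
      rw [Real.rpow_sub_one ht0.ne' (p - 1)]
      field_simp
    rw [h8, ← hA]
    calc volume {a : En n | t < f a} * (2 * (ENNReal.ofReal (t / 2) * ENNReal.ofReal (t ^ (p - 1 - 1))))
        = 2 * ENNReal.ofReal (t ^ (p - 1 - 1)) *
            (ENNReal.ofReal (t / 2) * volume {a : En n | t < f a}) := by ring
      _ ≤ 2 * ENNReal.ofReal (t ^ (p - 1 - 1)) * (c5 n * ν A) := by gcongr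
      _ = (2 * c5 n) * (ν A * ENNReal.ofReal (t ^ (p - 1 - 1))) := by
          ring
  refine (setLIntegral_mono' measurableSet_Ioi key).trans ?_
  rw [lintegral_const_mul' _ _ (ENNReal.mul_ne_top (by norm_num) (by unfold c5; exact ENNReal.ofReal_ne_top))]
  refine mul_le_mul_right ?_ _
  have e2 := lintegral_rpow_eq_lintegral_meas_lt_mul ν (f := G)
    (Filter.Eventually.of_forall fun x => by
      rw [hG]
      exact mul_nonneg (by norm_num) ENNReal.toReal_nonneg)
    hGm.aemeasurable hp1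
  have e3 : ∫⁻ x, ENNReal.ofReal (G x ^ (p - 1)) ∂ν
      = ENNReal.ofReal (2 ^ (p - 1)) * ∫⁻ x, g x ^ p := by
    rw [hν, lintegral_withDensity_eq_lintegral_mul _ hg
      ((hGm.pow_const (p - 1)).ennreal_ofReal), ← lintegral_const_mul' _ _ ENNReal.ofReal_ne_top]
    refine lintegral_congr fun x => ?_
    simp only [Pi.mul_apply]
    rw [hG]
    simp only
    rw [Real.mul_rpow (by norm_num) ENNReal.toReal_nonneg, ENNReal.ofReal_mul (by positivity),
      ← ENNReal.ofReal_rpow_of_nonneg ENNReal.toReal_nonneg hp1.le, ENNReal.ofReal_toReal (hgt x)]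
    have e4 : g x ^ p = g x * g x ^ (p - 1) := by
      have : p = 1 + (p - 1) := by ring
      conv_lhs => rw [this]
      rw [ENNReal.rpow_add_of_nonneg _ _ (by norm_num) hp1.le, ENNReal.rpow_one]
    rw [e4]
    ring
  rw [e3] at e2
  have h9 : ENNReal.ofReal (p - 1) ≠ 0 := by
    rw [Ne, ENNReal.ofReal_eq_zero, not_le]
    exact hp1
  rw [mul_left_comm, e2, ← mul_assoc, ENNReal.inv_mul_cancel h9 ENNReal.ofReal_ne_top, one_mul]

/-- truncation -/
noncomputable def tr (w : En n → ℝ≥0∞) (J : ℕ) (x : En n) : ℝ≥0∞ := min (w x) J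

lemma meas_tr {w : En n → ℝ≥0∞} (hw : Measurable w) (J : ℕ) : Measurable (tr w J) :=
  hw.min measurable_const

lemma tr_mono (w : En n → ℝ≥0∞) (x : En n) : Monotone fun J => tr w J x := by
  intro a b hab
  exact min_le_min le_rfl (by exact_mod_cast hab)

lemma tr_sup (w : En n → ℝ≥0∞) (x : En n) : ⨆ J, tr w J x = w x := by
  refine le_antisymm (iSup_le fun J => min_le_left _ _) ?_
  refine le_of_forall_lt fun c hc => ?_
  obtain ⟨n, hn⟩ := ENNReal.exists_nat_gt (ne_top_of_lt hc)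
  exact (lt_min hc hn).trans_le (le_iSup (fun J => tr w J x) n)

lemma Av_tr {w : En n → ℝ≥0∞} (hw : Measurable w) (r : ℝ) (x : En n) :
    Av w r x = ⨆ J, Av (tr w J) r x := by
  unfold Av
  rw [← ENNReal.mul_iSup]
  congr 1
  rw [← lintegral_iSup (fun J => meas_tr hw J) (fun a b hab z => tr_mono w z hab)]
  exact lintegral_congr fun y => (tr_sup w y).symm

lemma Av_mono {g g1 : En n → ℝ≥0∞} (h : ∀ x, g x ≤ g1 x) (r : ℝ) (x : En n) : Av g r x ≤ Av g1 r x :=
  mul_le_mul_right (lintegral_mono fun y => h y) _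

/-- the approximations -/
noncomputable def FF (w : En n → ℝ≥0∞) (J : ℕ) (x : En n) : ℝ≥0∞ := Mx (2 ^ J) (tr w J) x

lemma meas_FF {w : En n → ℝ≥0∞} (hw : Measurable w) (J : ℕ) : Measurable (FF w J) :=
  meas_Mx (meas_tr hw J)

lemma FF_mono (w : En n → ℝ≥0∞) (x : En n) : Monotone fun J => FF w J x := by
  refine monotone_nat_of_le_succ fun J => ?_
  refine iSup_le fun m => ?_
  have e : Rr (2 ^ J) m = Rr (2 ^ (J + 1)) (m + 1) := by
    unfold Rr
    rw [pow_succ, pow_succ]
    field_simp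
  rw [e]
  exact (Av_mono (fun y => tr_mono w y (Nat.le_succ J)) _ x).trans
    (le_iSup (fun m : ℕ => Av (tr w (J + 1)) (Rr (2 ^ (J + 1)) m) x) (m + 1))

lemma Av_le_FF {w : En n → ℝ≥0∞} (hw : Measurable w) (k : ℤ) (x : En n) :
    Av w (2 ^ k) x ≤ ⨆ J, FF w J x := by
  rw [Av_tr hw]
  refine iSup_le fun J => ?_
  obtain ⟨K, hK⟩ : ∃ K : ℕ, K = max J k.natAbs := ⟨_, rfl⟩
  have h1 : J ≤ K := by rw [hK]; exact le_max_left _ _
  have h2 : k ≤ K := by
    have : k.natAbs ≤ K := by rw [hK]; exact le_max_right _ _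
    omega
  obtain ⟨m, hm⟩ : ∃ m : ℕ, (m : ℤ) = K - k := ⟨(K - k : ℤ).toNat, by omega⟩
  have e : (2 : ℝ) ^ k = Rr (2 ^ K) m := by
    unfold Rr
    have : k = (K : ℤ) - m := by omega
    rw [this, zpow_sub₀ (by norm_num), zpow_natCast, zpow_natCast]
  rw [e]
  refine (Av_mono (fun y => tr_mono w y h1) _ x).trans ?_
  exact (le_iSup (fun m : ℕ => Av (tr w K) (Rr (2 ^ K) m) x) m).trans
    (le_iSup (fun J => FF w J x) K)

/-- the maximal function with dyadic radii -/
noncomputable def HM (w : En n → ℝ≥0∞) (x : En n) : ℝ≥0∞ := ⨆ k : ℤ, Av w (2 ^ k) x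

lemma meas_HM {w : En n → ℝ≥0∞} (hw : Measurable w) : Measurable (HM w) :=
  Measurable.iSup fun k => meas_Av hw _

/-- **Hardy-Littlewood** in `L²` -/
theorem HM_sq {w : En n → ℝ≥0∞} (hw : Measurable w) :
    ∫⁻ x, HM w x ^ 2 ≤ 8 * c5 n * ∫⁻ x, w x ^ 2 := by
  have h1 : ∀ x, HM w x ^ 2 ≤ ⨆ J, FF w J x ^ 2 := by
    intro x
    rw [← ENNReal.iSup_pow_of_ne_zero two_ne_zero]
    exact pow_le_pow_left' (iSup_le fun k => Av_le_FF hw k x) 2
  refine (lintegral_mono h1).trans ?_
  rw [lintegral_iSup (f := fun J x => FF w J x ^ 2) (fun J => (meas_FF hw J).pow_const 2)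
      (fun a b hab x => pow_le_pow_left' (FF_mono w x hab) 2)]
  refine iSup_le fun J => ?_
  have h3 := strong (p := 2) (by norm_num) (R₀ := 2 ^ J) (by positivity) (g := tr w J)
    (hw.min measurable_const) (B := J) (ENNReal.natCast_ne_top J) (fun x => min_le_right _ _)
  have e1 : ∀ y : ℝ≥0∞, y ^ (2 : ℝ) = y ^ 2 := fun y => by
    rw [← ENNReal.rpow_natCast]; norm_num
  simp only [e1] at h3
  have h4 : ∫⁻ x, tr w J x ^ 2 ≤ ∫⁻ x, w x ^ 2 :=
    lintegral_mono fun x => pow_le_pow_left' (min_le_left _ _) 2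
  refine h3.trans ?_
  have e2 : (2 : ℝ) - 1 = 1 := by norm_num
  rw [e2, Real.rpow_one, ENNReal.ofReal_one, inv_one, one_mul]
  have e3 : ENNReal.ofReal 2 = 2 := by simp
  rw [e3]
  calc (2 : ℝ≥0∞) * (2 * c5 n * (2 * ∫⁻ x, tr w J x ^ 2))
      = 8 * c5 n * ∫⁻ x, tr w J x ^ 2 := by ring
    _ ≤ _ := mul_le_mul' le_rfl h4

end Pool.Agent.W2helper16.SM
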