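import Pool.Agent.W2helper16.SM.Gauss

/-! The maximal function of the dyadic ball partial sums. -/

set_option autoImplicit false

open MeasureTheory Real Set Filter Topology Metric
open scoped ENNReal NNReal RealInnerProductSpace

namespace Pool.Agent.W2helper16.SM

open Pool.Agent.Helper93.Sph (ek Fi ek_norm ek_cont ek_int Fi_cont gint gauss_ft ps ps_eq shell
  shell_meas ind_int bessel ps_cont_x)

variable {n : ℕ}

/-- the difference of the two multipliers -/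
noncomputable def mw (t : ℝ) : ℝ := (if t < 1 then 1 else 0) - rexp (-(π * t ^ 2))

/-- telescoping majorant -/
noncomputable def HH (t : ℝ) : ℝ := 33 * (t ^ 2 / (1 + t ^ 2))

lemma mw_le {t : ℝ} (ht : 0 ≤ t) : mw t ^ 2 ≤ HH (2 * t) - HH t := by
  have hH : HH (2 * t) - HH t = 99 * t ^ 2 / ((1 + 4 * t ^ 2) * (1 + t ^ 2)) := by
    unfold HH
    field_simp
    ring
  rw [hH, le_div_iff₀ (by positivity)]
  have hpi := Real.pi_gt_d2
  have hpi2 := Real.pi_lt_d4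
  by_cases h : t < 1
  · have h1 : mw t = 1 - rexp (-(π * t ^ 2)) := by rw [mw, if_pos h]
    have h2 := Real.add_one_le_exp (-(π * t ^ 2))
    have h3 : rexp (-(π * t ^ 2)) ≤ 1 := by
      rw [Real.exp_le_one_iff]; nlinarith [sq_nonneg t]
    have h4 : mw t ^ 2 ≤ (π * t ^ 2) ^ 2 := by
      rw [h1]
      exact pow_le_pow_left₀ (by linarith) (by linarith) 2
    have h5 : t ^ 2 ≤ 1 := by nlinarith
    have h6 : (π * t ^ 2) ^ 2 ≤ 9.9 * t ^ 2 := by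
      have : π ^ 2 ≤ 9.9 := by nlinarith
      have h0 : 0 ≤ t ^ 2 := sq_nonneg t
      calc (π * t ^ 2) ^ 2 = π ^ 2 * (t ^ 2 * t ^ 2) := by ring
        _ ≤ 9.9 * (t ^ 2 * 1) := by
            apply mul_le_mul this _ (by positivity) (by norm_num)
            exact mul_le_mul_of_nonneg_left h5 h0
        _ = _ := by ring
    have h7 : (1 + 4 * t ^ 2) * (1 + t ^ 2) ≤ 10 := by nlinarith [sq_nonneg t]
    have h8 : 0 ≤ (1 + 4 * t ^ 2) * (1 + t ^ 2) := by positivity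
    calc mw t ^ 2 * ((1 + 4 * t ^ 2) * (1 + t ^ 2)) ≤ (9.9 * t ^ 2) * 10 :=
          mul_le_mul (h4.trans h6) h7 h8 (by positivity)
      _ = 99 * t ^ 2 := by ring
  · push Not at h
    have h1 : mw t = - rexp (-(π * t ^ 2)) := by rw [mw, if_neg (not_lt.2 h)]; ring
    have h5 : 1 ≤ t ^ 2 := by nlinarith
    have h2 : mw t ^ 2 ≤ 1 / (π * t ^ 2) := by
      rw [h1, neg_sq, ← Real.exp_nat_mul, le_div_iff₀ (by positivity)]
      have e1 : ((2 : ℕ) : ℝ) * -(π * t ^ 2) = -(2 * (π * t ^ 2)) := by push_cast; ring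
      rw [e1, Real.exp_neg, inv_mul_le_iff₀ (Real.exp_pos _), mul_one]
      have := Real.add_one_le_exp (2 * (π * t ^ 2))
      have h0 : 0 ≤ π * t ^ 2 := by positivity
      linarith
    have h3 : 1 / (π * t ^ 2) ≤ 1 / t ^ 2 := by
      apply one_div_le_one_div_of_le (by positivity)
      nlinarith
    have h7 : (1 + 4 * t ^ 2) * (1 + t ^ 2) ≤ 10 * (t ^ 2 * t ^ 2) := by nlinarith
    calc mw t ^ 2 * ((1 + 4 * t ^ 2) * (1 + t ^ 2)) ≤ (1 / t ^ 2) * (10 * (t ^ 2 * t ^ 2)) :=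
          mul_le_mul (h2.trans h3) h7 (by positivity) (by positivity)
      _ = 10 * t ^ 2 := by field_simp
      _ ≤ _ := by nlinarith

lemma sum_mw {t : ℝ} (ht : 0 ≤ t) (N : ℕ) : ∑ i ∈ Finset.range N, mw (2 ^ i * t) ^ 2 ≤ 33 := by
  have h1 : ∀ N : ℕ, ∑ i ∈ Finset.range N, mw (2 ^ i * t) ^ 2 ≤ HH (2 ^ N * t) - HH t := by
    intro N
    induction N with
    | zero => simp
    | succ N ih =>
      rw [Finset.sum_range_succ]
      have h2 := mw_le (t := 2 ^ N * t) (by positivity)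
      have h3 : 2 * (2 ^ N * t) = 2 ^ (N + 1) * t := by rw [pow_succ]; ring
      rw [h3] at h2
      linarith
  have h4 : HH (2 ^ N * t) ≤ 33 := by
    unfold HH
    have : (2 ^ N * t) ^ 2 / (1 + (2 ^ N * t) ^ 2) ≤ 1 := by
      rw [div_le_one (by positivity)]; linarith
    linarith
  have h5 : 0 ≤ HH t := by unfold HH; positivity
  linarith [h1 N]

lemma tsum_mw {t : ℝ} (ht : 0 ≤ t) : ∑' i : ℕ, ENNReal.ofReal (mw (2 ^ i * t) ^ 2) ≤ 33 := by
  rw [ENNReal.tsum_eq_iSup_nat]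
  refine iSup_le fun N => ?_
  rw [← ENNReal.ofReal_sum_of_nonneg fun i _ => sq_nonneg _]
  refine (ENNReal.ofReal_le_ofReal (sum_mw ht N)).trans (by simp)

/-- truncation -/
noncomputable def tc {m : ℕ} (G : En (m + 1) → ℂ) (R : ℝ) : En (m + 1) → ℂ :=
  (shell (m + 1) 0 R).indicator G

lemma tc_int {m : ℕ} {G : En (m + 1) → ℂ} (hG : MemLp G 2) (R : ℝ) : Integrable (tc G R) :=
  ind_int hG _ _

/-- the difference of the ball partial sum and the Gaussian mean -/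
lemma ps_sub_gm {m : ℕ} {G : En (m + 1) → ℂ} (hG : MemLp G 2) {R ρ : ℝ} (hρ : 0 < ρ) (hR : ρ ≤ R)
    (x : En (m + 1)) : ps G ρ x - gm (tc G R) ρ⁻¹ x =
      Fi (fun ξ => ((mw (‖ξ‖ / ρ) : ℝ) : ℂ) * tc G R ξ) x := by
  have hb : Integrable (fun ξ => ((rexp (-(π * (ρ⁻¹) ^ 2) * ‖ξ‖ ^ 2) : ℝ) : ℂ) * tc G R ξ) := by
    refine (tc_int hG R).bdd_mul (c := 1) (by fun_prop) (Eventually.of_forall fun ξ => ?_)
    rw [Complex.norm_real, Real.norm_of_nonneg (Real.exp_pos _).le, Real.exp_le_one_iff]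
    have := pi_pos
    have h1 : 0 ≤ π * (ρ⁻¹) ^ 2 * ‖ξ‖ ^ 2 := by positivity
    linarith
  rw [ps_eq, gm, Fi, Fi, ← integral_sub (ek_int (ind_int hG _ _) x) (ek_int hb x), Fi]
  refine integral_congr_ae (Eventually.of_forall fun ξ => ?_)
  simp only
  have e1 : rexp (-(π * (ρ⁻¹) ^ 2) * ‖ξ‖ ^ 2) = rexp (-(π * (‖ξ‖ / ρ) ^ 2)) := by
    congr 1; rw [div_pow]; field_simp
  rw [e1, mw]
  by_cases h : ‖ξ‖ < ρ
  · have h1 : ξ ∈ shell (m + 1) 0 ρ := ⟨norm_nonneg _, h⟩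
    have h2 : ξ ∈ shell (m + 1) 0 R := ⟨norm_nonneg _, h.trans_le hR⟩
    rw [indicator_of_mem h1, tc, indicator_of_mem h2, if_pos ((div_lt_one hρ).2 h)]
    push_cast; ring
  · have h1 : ξ ∉ shell (m + 1) 0 ρ := fun h' => h h'.2
    rw [indicator_of_notMem h1, if_neg (fun h' => h ((div_lt_one hρ).1 h'))]
    push_cast; ring

/-- the constant of the dyadic maximal function -/
noncomputable def cl (m : ℕ) : ℝ≥0∞ := 16 * (cg (m + 1) ^ 2 * c5 (m + 1)) + 66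

lemma cl_lt (m : ℕ) : cl m < ⊤ := by
  unfold cl c5
  refine ENNReal.add_lt_top.2 ⟨ENNReal.mul_lt_top (by simp) (ENNReal.mul_lt_top
    (ENNReal.pow_lt_top (cg_lt _)) ENNReal.ofReal_lt_top), by simp⟩

/-- the maximal function with radii `2^(K-i)` -/
lemma lac_K {m : ℕ} {G : En (m + 1) → ℂ} (hG : MemLp G 2) (K : ℤ) :
    ∫⁻ x, (⨆ i : ℕ, ‖ps G (2 ^ (K - i)) x‖ₑ) ^ 2 ≤ cl m * ∫⁻ ξ, ‖G ξ‖ₑ ^ 2 := by
  set R : ℝ := 2 ^ K with hR
  set ρ : ℕ → ℝ := fun i => 2 ^ (K - i) with hρ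
  have hρ0 : ∀ i, 0 < ρ i := fun i => by simp only [hρ]; positivity
  have hρR : ∀ i, ρ i ≤ R := fun i => by
    simp only [hρ, hR]; exact zpow_le_zpow_right₀ (by norm_num) (by omega)
  have hti := tc_int hG R
  set D : ℕ → En (m + 1) → ℂ := fun i => Fi (fun ξ => ((mw (‖ξ‖ / ρ i) : ℝ) : ℂ) * tc G R ξ) with hD
  have hmwm : Measurable mw := by
    unfold mw
    exact (Measurable.ite measurableSet_Iio measurable_const measurable_const).sub (by fun_prop)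
  have hmwb : ∀ t, 0 ≤ t → |mw t| ≤ 2 := by
    intro t ht
    have h1 : rexp (-(π * t ^ 2)) ≤ 1 := by
      rw [Real.exp_le_one_iff]; have := pi_pos; nlinarith [sq_nonneg t]
    have h2 := Real.exp_pos (-(π * t ^ 2))
    unfold mw
    split_ifs <;> rw [abs_le] <;> constructor <;> linarith
  have hDi : ∀ i, Integrable (fun ξ => ((mw (‖ξ‖ / ρ i) : ℝ) : ℂ) * tc G R ξ) := by
    intro i
    refine hti.bdd_mul (c := 2) ?_ (Eventually.of_forall fun ξ => ?_)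
    · exact (Complex.measurable_ofReal.comp (hmwm.comp
        (measurable_norm.div_const _))).aestronglyMeasurable
    · rw [Complex.norm_real]
      exact hmwb _ (div_nonneg (norm_nonneg _) (hρ0 i).le)
  have hDm : ∀ i, Measurable (D i) := fun i => (Fi_cont (hDi i)).measurable
  have hFm : Measurable fun y => ‖Fi (tc G R) y‖ₑ := (Fi_cont hti).measurable.enorm
  have hpt : ∀ x, (⨆ i : ℕ, ‖ps G (ρ i) x‖ₑ) ^ 2 ≤
      2 * (cg (m + 1) * HM (fun y => ‖Fi (tc G R) y‖ₑ) x) ^ 2 + 2 * ∑' i, ‖D i x‖ₑ ^ 2 := by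
    intro x
    rw [ENNReal.iSup_pow_of_ne_zero two_ne_zero]
    refine iSup_le fun i => ?_
    have h1 : ps G (ρ i) x - gm (tc G R) (ρ i)⁻¹ x = D i x := ps_sub_gm hG (hρ0 i) (hρR i) x
    have h2 : ps G (ρ i) x = gm (tc G R) (ρ i)⁻¹ x + D i x := by
      rw [← h1]; ring
    have h3 : (ρ i)⁻¹ = 2 ^ (-(K - i)) := by simp only [hρ]; rw [zpow_neg]
    rw [h2]
    refine (Pool.Agent.Helper93.Sph.enorm_add_sq_le _ _).trans ?_
    rw [mul_add]
    refine add_le_add (mul_le_mul' le_rfl (pow_le_pow_left' ?_ 2)) (mul_le_mul' le_rfl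
      (ENNReal.le_tsum (f := fun i => ‖D i x‖ₑ ^ 2) i))
    rw [h3]
    exact gm_le hti _ x
  have hI : ∫⁻ ξ, ‖tc G R ξ‖ₑ ^ 2 ≤ ∫⁻ ξ, ‖G ξ‖ₑ ^ 2 := by
    refine lintegral_mono fun ξ => pow_le_pow_left' ?_ 2
    unfold tc
    by_cases h : ξ ∈ shell (m + 1) 0 R
    · rw [indicator_of_mem h]
    · rw [indicator_of_notMem h]; simp
  have h1 : ∫⁻ x, (cg (m + 1) * HM (fun y => ‖Fi (tc G R) y‖ₑ) x) ^ 2 ≤
      cg (m + 1) ^ 2 * (8 * c5 (m + 1) * ∫⁻ ξ, ‖G ξ‖ₑ ^ 2) := by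
    simp_rw [mul_pow]
    rw [lintegral_const_mul _ ((meas_HM hFm).pow_const 2)]
    exact mul_le_mul' le_rfl ((HM_sq hFm).trans (mul_le_mul' le_rfl ((bessel hti).trans hI)))
  have h2 : ∫⁻ x, ∑' i, ‖D i x‖ₑ ^ 2 ≤ 33 * ∫⁻ ξ, ‖G ξ‖ₑ ^ 2 := by
    rw [lintegral_tsum fun i => ((hDm i).enorm.pow_const 2).aemeasurable]
    calc ∑' i, ∫⁻ x, ‖D i x‖ₑ ^ 2
        ≤ ∑' i : ℕ, ∫⁻ ξ, ENNReal.ofReal (mw (2 ^ i * (‖ξ‖ / R)) ^ 2) * ‖tc G R ξ‖ₑ ^ 2 := by
          refine ENNReal.tsum_le_tsum fun i => (bessel (hDi i)).trans (le_of_eq ?_)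
          refine lintegral_congr fun ξ => ?_
          have e1 : ‖ξ‖ / ρ i = 2 ^ i * (‖ξ‖ / R) := by
            simp only [hρ, hR]
            rw [zpow_sub₀ (by norm_num), zpow_natCast]
            field_simp
          rw [enorm_mul, mul_pow, ← e1]
          congr 1
          rw [← ofReal_norm, Complex.norm_real, Real.norm_eq_abs, ← ENNReal.ofReal_pow (abs_nonneg _),
            sq_abs]
      _ = ∫⁻ ξ, ∑' i : ℕ, ENNReal.ofReal (mw (2 ^ i * (‖ξ‖ / R)) ^ 2) * ‖tc G R ξ‖ₑ ^ 2 := by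
          rw [lintegral_tsum fun i => ?_]
          refine AEMeasurable.mul (Measurable.aemeasurable ?_)
            (hti.aestronglyMeasurable.enorm.pow_const 2)
          exact ((hmwm.comp ((measurable_norm.div_const _).const_mul _)).pow_const 2).ennreal_ofReal
      _ ≤ ∫⁻ ξ, 33 * ‖tc G R ξ‖ₑ ^ 2 := by
          refine lintegral_mono fun ξ => ?_
          rw [ENNReal.tsum_mul_right]
          exact mul_le_mul' (tsum_mw (div_nonneg (norm_nonneg _) (by positivity))) le_rfl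
      _ = 33 * ∫⁻ ξ, ‖tc G R ξ‖ₑ ^ 2 :=
          lintegral_const_mul'' _ (hti.aestronglyMeasurable.enorm.pow_const 2)
      _ ≤ _ := mul_le_mul' le_rfl hI
  refine (lintegral_mono hpt).trans ?_
  rw [lintegral_add_left ((((meas_HM hFm).const_mul _).pow_const 2).const_mul _),
    lintegral_const_mul _ (((meas_HM hFm).const_mul _).pow_const 2),
    lintegral_const_mul _ (Measurable.tsum fun i => (hDm i).enorm.pow_const 2)]
  refine (add_le_add (mul_le_mul' le_rfl h1) (mul_le_mul' le_rfl h2)).trans (le_of_eq ?_)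
  unfold cl
  ring

/-- **the dyadic maximal function** -/
theorem lac {m : ℕ} {G : En (m + 1) → ℂ} (hG : MemLp G 2) :
    ∫⁻ x, (⨆ k : ℤ, ‖ps G (2 ^ k) x‖ₑ) ^ 2 ≤ cl m * ∫⁻ ξ, ‖G ξ‖ₑ ^ 2 := by
  have h1 : ∀ x, (⨆ k : ℤ, ‖ps G (2 ^ k) x‖ₑ) ^ 2 ≤
      ⨆ K : ℕ, (⨆ i : ℕ, ‖ps G (2 ^ ((K : ℤ) - i)) x‖ₑ) ^ 2 := by
    intro x
    rw [ENNReal.iSup_pow_of_ne_zero two_ne_zero]
    refine iSup_le fun k => ?_
    obtain ⟨K, hK⟩ : ∃ K : ℕ, k ≤ K := ⟨k.toNat, Int.self_le_toNat k⟩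
    obtain ⟨i, hi⟩ : ∃ i : ℕ, k = (K : ℤ) - i := ⟨(K - k : ℤ).toNat, by omega⟩
    refine le_trans ?_ (le_iSup (fun K : ℕ => (⨆ i : ℕ, ‖ps G (2 ^ ((K : ℤ) - i)) x‖ₑ) ^ 2) K)
    rw [hi]
    exact pow_le_pow_left' (le_iSup (fun i : ℕ => ‖ps G (2 ^ ((K : ℤ) - i)) x‖ₑ) i) 2
  refine (lintegral_mono h1).trans ?_
  rw [lintegral_iSup]
  · exact iSup_le fun K => lac_K hG K
  · exact fun K => (Measurable.iSup fun i => (ps_cont_x hG _).measurable.enorm).pow_const 2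
  · refine monotone_nat_of_le_succ fun K x => pow_le_pow_left' ?_ 2
    refine iSup_le fun i => ?_
    have : ((K : ℤ) - i) = ((K + 1 : ℕ) : ℤ) - ((i + 1 : ℕ) : ℤ) := by push_cast; ring
    rw [this]
    exact le_iSup (fun i : ℕ => ‖ps G (2 ^ (((K + 1 : ℕ) : ℤ) - i)) x‖ₑ) (i + 1)

end Pool.Agent.W2helper16.SM
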